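import Pool.Agent.H562C.C1



open Finset

namespace Pool.Agent.H562C





/-! auxiliary lemmas (helper176) -/

theorem h176_prod_pairs (K i : ℕ) (hi : i < K) (g : ℕ → ℕ → ℚ)
    (hg : ∀ a b, a < b → a ≠ i → b ≠ i → g a b = 1) :
    ∏ b ∈ range K, ∏ a ∈ range b, g a b = (∏ a ∈ range i, g a i) * ∏ b ∈ Ioo i K, g i b := by
  rw [← Finset.prod_range_mul_prod_Ico _ hi.le]
  have h1 : ∏ b ∈ range i, ∏ a ∈ range b, g a b = 1 := by
    apply Finset.prod_eq_one
    intro b hb
    apply Finset.prod_eq_one
    intro a ha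
    rw [Finset.mem_range] at ha hb
    exact hg a b ha (by omega) (by omega)
  rw [h1, one_mul, ← Finset.Ioo_insert_left hi, Finset.prod_insert (by simp)]
  congr 1
  apply Finset.prod_congr rfl
  intro b hb
  rw [Finset.mem_Ioo] at hb
  rw [Finset.prod_eq_single i]
  · intro a ha hai
    rw [Finset.mem_range] at ha
    exact hg a b ha hai (by omega)
  · intro h
    exact absurd (Finset.mem_range.2 hb.1) h

theorem h176_prod_erase (K i : ℕ) (hi : i < K) (f : ℕ → ℚ) :
    ∏ j ∈ (range K).erase i, f j = (∏ a ∈ range i, f a) * ∏ b ∈ Ioo i K, f b := by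
  have h1 : (range K).erase i = range i ∪ Ioo i K := by
    ext j
    simp only [Finset.mem_erase, Finset.mem_range, Finset.mem_union, Finset.mem_Ioo]
    omega
  rw [h1, Finset.prod_union]
  rw [Finset.disjoint_left]
  intro j hj hj'
  rw [Finset.mem_range] at hj
  rw [Finset.mem_Ioo] at hj'
  omega

/-- the ratio -/
def h176_R (x y : ℚ) : ℚ := ((x - 1 - y) * (x + y)) / ((x - 1 + y) * (x - y))

theorem h176_cc_left (x y : ℕ) (hx : y < x) (hy : y ≠ 0) :
    cc (x - 1) y = cc x y * h176_R x y := by
  unfold cc h176_R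
  rw [if_neg hy, if_neg hy]
  obtain ⟨t, rfl⟩ : ∃ t, x = t + 1 := ⟨x - 1, by omega⟩
  have h1 : ((y : ℚ)) < ((t + 1 : ℕ) : ℚ) := by exact_mod_cast hx
  have h2 : (0 : ℚ) < y := by exact_mod_cast Nat.pos_of_ne_zero hy
  have h3 : (0 : ℚ) ≤ t := by positivity
  simp only [Nat.add_sub_cancel]
  push_cast at h1 ⊢
  have e1 : (t : ℚ) + 1 - y ≠ 0 := by linarith
  have e2 : (t : ℚ) + 1 + y ≠ 0 := by positivity
  have e3 : (t : ℚ) + y ≠ 0 := by positivity
  have e4 : (t : ℚ) + 1 - 1 + y ≠ 0 := by
    have : (t : ℚ) + 1 - 1 + y = t + y := by ring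
    rw [this]; exact e3
  field_simp
  ring

theorem h176_cc_right (x y : ℕ) (hx : x < y) (hx0 : 0 < x) :
    cc y (x - 1) = cc y x * h176_R x y := by
  unfold cc h176_R
  have h1 : ((x : ℚ)) < (y : ℚ) := by exact_mod_cast hx
  have h2 : (0 : ℚ) < x := by exact_mod_cast hx0
  have h2' : (1 : ℚ) ≤ x := by exact_mod_cast hx0
  have e1 : (x : ℚ) - y ≠ 0 := by linarith
  have e1' : (y : ℚ) - x ≠ 0 := by linarith
  have e2 : (x : ℚ) + y ≠ 0 := by linarith
  have e3 : (x : ℚ) - 1 + y ≠ 0 := by linarith
  rw [if_neg (by omega : x ≠ 0)]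
  by_cases hx1 : x - 1 = 0
  · rw [if_pos hx1]
    have : x = 1 := by omega
    subst this
    push_cast at *
    have e4 : (y : ℚ) ≠ 0 := by linarith
    have e5 : (y : ℚ) + 1 ≠ 0 := by linarith
    have e6 : (1 : ℚ) - 1 + y = y := by ring
    rw [e6]
    field_simp
    ring
  · rw [if_neg hx1]
    have hc : ((x - 1 : ℕ) : ℚ) = (x : ℚ) - 1 := by
      rw [Nat.cast_sub hx0]; simp
    rw [hc]
    have e5 : (y : ℚ) + (x - 1) ≠ 0 := by linarith
    have e6 : (y : ℚ) + x ≠ 0 := by linarith
    field_simp
    ring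

theorem h176_claim (K : ℕ) (μ : ℕ → ℕ) (hst : st μ) (h0 : ∀ i, K ≤ i → μ i = 0)
    (i : ℕ) (hi : i < K) (hmi : 0 < μ i) :
    Fh K (dnv i μ) = FF K μ * ((μ i : ℚ) / ((∑ j ∈ range K, μ j : ℕ) : ℚ)) *
      ∏ j ∈ ((range K).filter (fun j => 0 < μ j)).erase i, h176_R (μ i) (μ j) := by
  classical
  have hd1 : dnv i μ i = μ i - 1 := by simp [dnv]
  have hd2 : ∀ j, j ≠ i → dnv i μ j = μ j := fun j hj => by simp [dnv, hj]
  by_cases hs : st (dnv i μ)
  · -- product of ratios
    have hprod : ∏ j ∈ ((range K).filter (fun j => 0 < μ j)).erase i, h176_R (μ i) (μ j) =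
        (∏ a ∈ range i, (if μ a = 0 then 1 else h176_R (μ i) (μ a))) *
          ∏ b ∈ Ioo i K, (if μ b = 0 then 1 else h176_R (μ i) (μ b)) := by
      rw [← h176_prod_erase K i hi (fun b => (if μ b = 0 then 1 else h176_R (μ i) (μ b)))]
      have h1 : ((range K).filter (fun j => 0 < μ j)).erase i =
          ((range K).erase i).filter (fun j => 0 < μ j) := by
        ext j
        simp only [Finset.mem_erase, Finset.mem_filter, Finset.mem_range]
        tauto
      rw [h1, Finset.prod_filter]
      apply Finset.prod_congr rfl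
      intro j _
      by_cases hj : μ j = 0
      · simp [hj]
      · rw [if_pos (Nat.pos_of_ne_zero hj), if_neg hj]
    obtain ⟨ρ, hρ⟩ : ∃ ρ : ℕ → ℕ → ℚ, ρ = fun a b =>
        if a = i then (if μ b = 0 then 1 else h176_R (μ i) (μ b))
        else if b = i then (if μ a = 0 then 1 else h176_R (μ i) (μ a)) else 1 := ⟨_, rfl⟩
    have hpair : ∀ a b, a < b → cc (dnv i μ a) (dnv i μ b) = cc (μ a) (μ b) * ρ a b := by
      intro a b hab
      by_cases ha : a = i
      · subst ha
        rw [hd1, hd2 b (by omega), hρ]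
        simp only [if_true]
        by_cases hb : μ b = 0
        · rw [if_pos hb, hb]
          simp [cc]
        · rw [if_neg hb]
          exact h176_cc_left (μ a) (μ b) ((hst a b hab).resolve_left hb) hb
      · by_cases hb : b = i
        · subst hb
          rw [hd1, hd2 a ha, hρ]
          simp only [if_neg ha, if_true]
          have hlt : μ b < μ a := (hst a b hab).resolve_left (by omega)
          rw [if_neg (by omega)]
          exact h176_cc_right (μ b) (μ a) hlt hmi
        · rw [hd2 a ha, hd2 b hb, hρ]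
          simp [if_neg ha, if_neg hb]
    have hcc : ∏ b ∈ range K, ∏ a ∈ range b, cc (dnv i μ a) (dnv i μ b) =
        (∏ b ∈ range K, ∏ a ∈ range b, cc (μ a) (μ b)) *
          ∏ j ∈ ((range K).filter (fun j => 0 < μ j)).erase i, h176_R (μ i) (μ j) := by
      have h1 : ∏ b ∈ range K, ∏ a ∈ range b, cc (dnv i μ a) (dnv i μ b) =
          ∏ b ∈ range K, ∏ a ∈ range b, (cc (μ a) (μ b) * ρ a b) := by
        apply Finset.prod_congr rfl
        intro b _
        apply Finset.prod_congr rfl
        intro a ha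
        exact hpair a b (Finset.mem_range.1 ha)
      rw [h1]
      simp only [Finset.prod_mul_distrib]
      congr 1
      rw [h176_prod_pairs K i hi ρ, hprod]
      · congr 1
        · apply Finset.prod_congr rfl
          intro a ha
          rw [Finset.mem_range] at ha
          have hai : a ≠ i := by omega
          rw [hρ]
          simp only [if_neg hai, if_true]
        · apply Finset.prod_congr rfl
          intro b hb
          rw [hρ]
          simp
      · intro a b _ ha hb
        rw [hρ]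
        simp [ha, hb]
    have hsum : ∑ j ∈ range K, μ j = (∑ j ∈ range K, dnv i μ j) + 1 := by
      rw [← Finset.add_sum_erase _ _ (Finset.mem_range.2 hi),
        ← Finset.add_sum_erase (range K) (fun j => dnv i μ j) (Finset.mem_range.2 hi)]
      have : ∑ j ∈ (range K).erase i, dnv i μ j = ∑ j ∈ (range K).erase i, μ j := by
        apply Finset.sum_congr rfl
        intro j hj
        exact hd2 j (Finset.ne_of_mem_erase hj)
      simp only [this, hd1]
      omega
    have hfac : ∏ j ∈ range K, (1 / ((dnv i μ j).factorial : ℚ)) =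
        μ i * ∏ j ∈ range K, (1 / ((μ j).factorial : ℚ)) := by
      rw [← Finset.mul_prod_erase _ _ (Finset.mem_range.2 hi),
        ← Finset.mul_prod_erase (range K) (fun j => (1 / ((μ j).factorial : ℚ)))
          (Finset.mem_range.2 hi)]
      have : ∏ j ∈ (range K).erase i, (1 / ((dnv i μ j).factorial : ℚ)) =
          ∏ j ∈ (range K).erase i, (1 / ((μ j).factorial : ℚ)) := by
        apply Finset.prod_congr rfl
        intro j hj
        rw [hd2 j (Finset.ne_of_mem_erase hj)]
      rw [this, hd1]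
      obtain ⟨t, ht⟩ : ∃ t, μ i = t + 1 := ⟨μ i - 1, by omega⟩
      rw [ht, Nat.add_sub_cancel, Nat.factorial_succ]
      have : ((t.factorial : ℕ) : ℚ) ≠ 0 := by exact_mod_cast Nat.factorial_ne_zero t
      have h2 : ((t : ℚ) + 1) ≠ 0 := by positivity
      push_cast
      field_simp
    rw [Fh, if_pos hs, FF, hcc, hfac, FF, hsum, Nat.factorial_succ]
    have h2 : (((∑ j ∈ range K, dnv i μ j : ℕ) : ℚ) + 1) ≠ 0 := by positivity
    generalize (∑ j ∈ range K, dnv i μ j : ℕ) = T at *
    push_cast at *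
    field_simp
  · rw [Fh, if_neg hs]
    symm
    have : ∃ b ∈ ((range K).filter (fun j => 0 < μ j)).erase i, h176_R (μ i) (μ b) = 0 := by
      unfold st at hs
      push Not at hs
      obtain ⟨a, b, hab, hb0, hle⟩ := hs
      have hstab := hst a b hab
      by_cases ha : a = i
      · subst ha
        rw [hd2 b (by omega)] at hb0 hle
        rw [hd1] at hle
        have hlt : μ b < μ a := hstab.resolve_left hb0
        have hbK : b < K := by
          by_contra hc
          exact hb0 (h0 b (by omega))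
        refine ⟨b, ?_, ?_⟩
        · simp only [Finset.mem_erase, Finset.mem_filter, Finset.mem_range]
          exact ⟨by omega, hbK, by omega⟩
        · have : μ a = μ b + 1 := by omega
          rw [h176_R, this]
          push_cast
          simp
      · exfalso
        rw [hd2 a ha] at hle
        by_cases hb : b = i
        · subst hb
          rw [hd1] at hb0 hle
          have := hstab.resolve_left (by omega)
          omega
        · rw [hd2 b hb] at hb0 hle
          have := hstab.resolve_left (by omega)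
          omega
    obtain ⟨b, hb, hb0⟩ := this
    rw [Finset.prod_eq_zero hb hb0, mul_zero]

theorem FF_rec (K : ℕ) (μ : ℕ → ℕ) (hst : st μ) (h0 : ∀ i, K ≤ i → μ i = 0)
    (hpos : 0 < ∑ i ∈ range K, μ i) :
    ∑ i ∈ range K, (if 0 < μ i then Fh K (dnv i μ) else 0) = FF K μ := by
  classical
  have hM : ((∑ i ∈ range K, μ i : ℕ) : ℚ) ≠ 0 := by
    have : (∑ i ∈ range K, μ i) ≠ 0 := by omega
    exact_mod_cast this
  rw [← Finset.sum_filter]
  have h1 : ∑ i ∈ (range K).filter (fun i => 0 < μ i), Fh K (dnv i μ) =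
      ∑ i ∈ (range K).filter (fun i => 0 < μ i),
        (FF K μ / (2 * ((∑ j ∈ range K, μ j : ℕ) : ℚ))) * ((2 * (μ i : ℚ)) *
          ∏ j ∈ ((range K).filter (fun j => 0 < μ j)).erase i,
            (((((μ i : ℚ)) ^ 2 - μ i) - ((μ j : ℚ) ^ 2 - μ j) - 2 * μ j) /
              (((μ i : ℚ) ^ 2 - μ i) - ((μ j : ℚ) ^ 2 - μ j)))) := by
    apply Finset.sum_congr rfl
    intro i hi
    rw [Finset.mem_filter, Finset.mem_range] at hi
    rw [h176_claim K μ hst h0 i hi.1 hi.2]
    have h2 : ∏ j ∈ ((range K).filter (fun j => 0 < μ j)).erase i, h176_R (μ i) (μ j) =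
        ∏ j ∈ ((range K).filter (fun j => 0 < μ j)).erase i,
            (((((μ i : ℚ)) ^ 2 - μ i) - ((μ j : ℚ) ^ 2 - μ j) - 2 * μ j) /
              (((μ i : ℚ) ^ 2 - μ i) - ((μ j : ℚ) ^ 2 - μ j))) := by
      apply Finset.prod_congr rfl
      intro j _
      rw [h176_R]
      congr 1 <;> ring
    rw [h2]
    generalize (∏ j ∈ ((range K).filter (fun j => 0 < μ j)).erase i,
            (((((μ i : ℚ)) ^ 2 - μ i) - ((μ j : ℚ) ^ 2 - μ j) - 2 * μ j) /
              (((μ i : ℚ) ^ 2 - μ i) - ((μ j : ℚ) ^ 2 - μ j)))) = PP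
    field_simp
  rw [h1, ← Finset.mul_sum]
  have h3 := lagr ((range K).filter (fun i => 0 < μ i)) (fun i => (μ i : ℚ) ^ 2 - μ i)
    (fun i => 2 * (μ i : ℚ)) (by
      intro i hi j hj hij
      rw [Finset.mem_filter, Finset.mem_range] at hi hj
      intro he
      have h5 : ((μ i : ℚ) - μ j) * ((μ i : ℚ) + μ j - 1) = 0 := by
        linear_combination he
      have hi1 : (1 : ℚ) ≤ μ i := by exact_mod_cast hi.2
      have hj1 : (1 : ℚ) ≤ μ j := by exact_mod_cast hj.2
      rcases mul_eq_zero.1 h5 with h6 | h6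
      · have h7 : (μ i : ℚ) = μ j := by linarith
        have h8 : μ i = μ j := by exact_mod_cast h7
        rcases lt_or_gt_of_ne hij with h9 | h9
        · have := (hst i j h9).resolve_left (by omega)
          omega
        · have := (hst j i h9).resolve_left (by omega)
          omega
      · linarith)
  rw [h3, ← Finset.mul_sum]
  have h4 : ∑ i ∈ (range K).filter (fun i => 0 < μ i), (μ i : ℚ) = ((∑ i ∈ range K, μ i : ℕ) : ℚ) := by
    rw [Finset.sum_filter]
    push_cast
    apply Finset.sum_congr rfl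
    intro i _
    by_cases h : 0 < μ i
    · rw [if_pos h]
    · have : μ i = 0 := by omega
      simp [this]
  rw [h4]
  field_simp



end Pool.Agent.H562C
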