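import Pool.Agent.H562C.Defs



open Finset

namespace Pool.Agent.H562C



theorem st_iff (μ : ℕ → ℕ) : st μ ↔ ∀ i, μ (i + 1) = 0 ∨ μ (i + 1) < μ i := by
  constructor
  · intro h i
    exact h i (i + 1) (Nat.lt_succ_self i)
  · intro h i j hij
    obtain ⟨d, rfl⟩ := Nat.exists_eq_add_of_lt hij
    clear hij
    induction d with
    | zero => exact h i
    | succ d ih =>
      have h2 := h (i + d + 1)
      rcases h2 with h2 | h2
      · left
        exact h2
      · right
        rcases ih with h3 | h3
        · omega
        · exact lt_trans h2 h3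

theorem upv_apply (i : ℕ) (μ : ℕ → ℕ) (k : ℕ) : upv i μ k = if k = i then μ i + 1 else μ k := by
  unfold upv
  by_cases h : k = i
  · subst h
    simp
  · rw [Function.update_of_ne h, if_neg h]

theorem dnv_apply (i : ℕ) (μ : ℕ → ℕ) (k : ℕ) : dnv i μ k = if k = i then μ i - 1 else μ k := by
  unfold dnv
  by_cases h : k = i
  · subst h
    simp
  · rw [Function.update_of_ne h, if_neg h]

theorem st_upv_zero (μ : ℕ → ℕ) (hst : st μ) : st (upv 0 μ) := by
  rw [st_iff] at hst ⊢
  intro k
  rw [upv_apply, upv_apply, if_neg (Nat.succ_ne_zero k)]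
  have h := hst k
  by_cases hk : k = 0
  · subst hk
    rw [if_pos rfl]
    omega
  · rw [if_neg hk]
    exact h

theorem st_upv_succ (μ : ℕ → ℕ) (hst : st μ) (i : ℕ) :
    st (upv (i + 1) μ) ↔ μ (i + 1) + 2 ≤ μ i := by
  rw [st_iff] at hst ⊢
  constructor
  · intro h
    have h1 := h i
    rw [upv_apply, upv_apply, if_pos rfl, if_neg (by omega)] at h1
    omega
  · intro h k
    rw [upv_apply, upv_apply]
    have h1 := hst k
    by_cases hk : k = i
    · subst hk
      rw [if_pos rfl, if_neg (by omega)]
      omega
    · rw [if_neg (by omega)]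
      by_cases hk2 : k = i + 1
      · subst hk2
        rw [if_pos rfl]
        omega
      · rw [if_neg hk2]
        exact h1

theorem st_dnv (μ : ℕ → ℕ) (hst : st μ) (i : ℕ) :
    (0 < μ i ∧ st (dnv i μ)) ↔ (0 < μ i ∧ (μ (i + 1) = 0 ∨ μ (i + 1) + 2 ≤ μ i)) := by
  rw [st_iff] at hst ⊢
  constructor
  · rintro ⟨h0, h⟩
    refine ⟨h0, ?_⟩
    have h1 := h i
    rw [dnv_apply, dnv_apply, if_neg (by omega), if_pos rfl] at h1
    omega
  · rintro ⟨h0, h⟩
    refine ⟨h0, ?_⟩
    intro k
    rw [dnv_apply, dnv_apply]
    have h1 := hst k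
    by_cases hk : k = i
    · subst hk
      rw [if_neg (by omega), if_pos rfl]
      omega
    · by_cases hk2 : k + 1 = i
      · subst hk2
        rw [if_pos rfl, if_neg (by omega)]
        omega
      · rw [if_neg hk2, if_neg hk]
        exact h1

theorem FF_ext (K : ℕ) (μ : ℕ → ℕ) (h0 : μ K = 0) : FF (K + 1) μ = FF K μ := by
  unfold FF
  rw [sum_range_succ, prod_range_succ, prod_range_succ (fun j => ∏ i ∈ range j, cc (μ i) (μ j)), h0]
  simp [cc]

open Classical in
theorem id_w (K : ℕ) (μ : ℕ → ℕ) (hst : st μ) (h0 : ∀ i, K ≤ i → μ i = 0) :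
    ∑ i ∈ range (K + 1), (if st (upv i μ) then wv i (μ i) else 0)
      - ∑ i ∈ range K, (if 0 < μ i ∧ st (dnv i μ) then wv i (μ i - 1) else 0)
      = 2 * ((range K).filter (fun i => 0 < μ i ∧ st (dnv i μ))).card := by
  have key : ∀ i, (if st (upv (i + 1) μ) then wv (i + 1) (μ (i + 1)) else 0)
      - (if 0 < μ i ∧ st (dnv i μ) then wv i (μ i - 1) else 0)
      - (if 0 < μ i ∧ st (dnv i μ) then (2 : ℚ) else 0)
      = (if 0 < μ (i + 1) then (μ (i + 1) : ℚ) + ((i + 1 : ℕ) : ℚ) else -1)
        - (if 0 < μ i then (μ i : ℚ) + (i : ℚ) else -1) := by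
    intro i
    have hi := (st_iff μ).1 hst i
    rw [if_congr (st_upv_succ μ hst i) rfl rfl, if_congr (st_dnv μ hst i) rfl rfl,
      if_congr (st_dnv μ hst i) rfl rfl]
    by_cases c0 : μ i = 0
    · have c1 : μ (i + 1) = 0 := by omega
      rw [if_neg (by omega), if_neg (by omega), if_neg (by omega), if_neg (by omega),
        if_neg (by omega)]
      norm_num
    · by_cases c1 : μ (i + 1) = 0
      · by_cases c2 : μ i = 1
        · rw [if_neg (by omega), if_pos (by omega), if_pos (by omega), if_neg (by omega),
            if_pos (by omega), c2]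
          simp only [wv]
          norm_num
          ring
        · rw [if_pos (by omega), if_pos (by omega), if_pos (by omega), if_neg (by omega),
            if_pos (by omega), c1]
          obtain ⟨m, hm⟩ : ∃ m, μ i = m + 2 := ⟨μ i - 2, by omega⟩
          rw [hm]
          simp only [wv]
          rw [if_pos trivial, if_neg (by omega)]
          have : m + 2 - 1 = m + 1 := by omega
          rw [this]
          push_cast
          ring
      · by_cases c2 : μ i = μ (i + 1) + 1
        · rw [if_neg (by omega), if_neg (by omega), if_neg (by omega), if_pos (by omega),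
            if_pos (by omega), c2]
          push_cast
          ring
        · rw [if_pos (by omega), if_pos (by omega), if_pos (by omega), if_pos (by omega),
            if_pos (by omega)]
          obtain ⟨m, hm⟩ : ∃ m, μ i = m + 2 := ⟨μ i - 2, by omega⟩
          rw [hm]
          simp only [wv]
          rw [if_neg c1, if_neg (by omega)]
          have : m + 2 - 1 = m + 1 := by omega
          rw [this]
          push_cast
          ring
  have hsum := Finset.sum_congr (rfl : range K = range K) (fun i _ => key i)
  rw [Finset.sum_sub_distrib, Finset.sum_sub_distrib] at hsum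
  have htel := Finset.sum_range_sub
    (fun i => if 0 < μ i then (μ i : ℚ) + (i : ℚ) else -1) K
  beta_reduce at htel
  rw [htel] at hsum
  have hcard : ∑ i ∈ range K, (if 0 < μ i ∧ st (dnv i μ) then (2 : ℚ) else 0)
      = 2 * ((range K).filter (fun i => 0 < μ i ∧ st (dnv i μ))).card := by
    rw [← Finset.sum_filter, Finset.sum_const, nsmul_eq_mul, mul_comm]
  rw [hcard] at hsum
  rw [Finset.sum_range_succ', if_pos (st_upv_zero μ hst)]
  have hK : μ K = 0 := h0 K le_rfl
  rw [if_neg (by omega : ¬ 0 < μ K)] at hsum
  by_cases c : μ 0 = 0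
  · rw [if_neg (by omega : ¬ 0 < μ 0)] at hsum
    have hw : wv 0 (μ 0) = 0 := by
      simp only [wv]
      rw [if_pos c]
      norm_num
    rw [hw]
    linarith
  · rw [if_pos (by omega : 0 < μ 0)] at hsum
    have hw : wv 0 (μ 0) = (μ 0 : ℚ) + 1 := by
      simp only [wv]
      rw [if_neg c]
      push_cast
      ring
    rw [hw]
    push_cast at hsum
    linarith

open Classical in
theorem id_v (K : ℕ) (μ : ℕ → ℕ) (hst : st μ) (h0 : ∀ i, K ≤ i → μ i = 0) :
    ∑ i ∈ range (K + 1), (if st (upv i μ) then vv i (μ i) else 0)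
      - ∑ i ∈ range K, (if 0 < μ i ∧ st (dnv i μ) then vv i (μ i - 1) else 0)
      = 1 := by
  have key : ∀ i, (if st (upv (i + 1) μ) then vv (i + 1) (μ (i + 1)) else 0)
      - (if 0 < μ i ∧ st (dnv i μ) then vv i (μ i - 1) else 0)
      = (if 0 < μ (i + 1) then (1 : ℚ) else 0)
        - (if 0 < μ i then (1 : ℚ) else 0) := by
    intro i
    have hi := (st_iff μ).1 hst i
    rw [if_congr (st_upv_succ μ hst i) rfl rfl, if_congr (st_dnv μ hst i) rfl rfl]
    by_cases c0 : μ i = 0
    · have c1 : μ (i + 1) = 0 := by omega
      rw [if_neg (by omega), if_neg (by omega), if_neg (by omega), if_neg (by omega)]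
    · by_cases c1 : μ (i + 1) = 0
      · by_cases c2 : μ i = 1
        · rw [if_neg (by omega), if_pos (by omega), if_neg (by omega),
            if_pos (by omega), c2]
          simp only [vv]
          norm_num
        · rw [if_pos (by omega), if_pos (by omega), if_neg (by omega),
            if_pos (by omega), c1]
          simp only [vv]
          rw [if_pos trivial, if_neg (by omega)]
          norm_num
      · by_cases c2 : μ i = μ (i + 1) + 1
        · rw [if_neg (by omega), if_neg (by omega), if_pos (by omega),
            if_pos (by omega)]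
          norm_num
        · rw [if_pos (by omega), if_pos (by omega), if_pos (by omega),
            if_pos (by omega)]
          simp only [vv]
          rw [if_neg c1, if_neg (by omega)]
          norm_num
  have hsum := Finset.sum_congr (rfl : range K = range K) (fun i _ => key i)
  rw [Finset.sum_sub_distrib] at hsum
  have htel := Finset.sum_range_sub
    (fun i => if 0 < μ i then (1 : ℚ) else 0) K
  beta_reduce at htel
  rw [htel] at hsum
  rw [Finset.sum_range_succ', if_pos (st_upv_zero μ hst)]
  have hK : μ K = 0 := h0 K le_rfl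
  rw [if_neg (by omega : ¬ 0 < μ K)] at hsum
  by_cases c : μ 0 = 0
  · rw [if_neg (by omega : ¬ 0 < μ 0)] at hsum
    have hw : vv 0 (μ 0) = 1 := by
      simp only [vv]
      rw [if_pos c]
    rw [hw]
    linarith
  · rw [if_pos (by omega : 0 < μ 0)] at hsum
    have hw : vv 0 (μ 0) = 2 := by
      simp only [vv]
      rw [if_neg c]
    rw [hw]
    linarith

end Pool.Agent.H562C
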