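import Pool.Agent.H562C.C2
import Pool.Agent.H562C.C3



open Finset

namespace Pool.Agent.H562C







theorem upv_same (i : ℕ) (μ : ℕ → ℕ) : upv i μ i = μ i + 1 := by
  simp [upv]

theorem upv_ne (i : ℕ) (μ : ℕ → ℕ) {l : ℕ} (h : l ≠ i) : upv i μ l = μ l := by
  simp [upv, h]

theorem dnv_same (i : ℕ) (μ : ℕ → ℕ) : dnv i μ i = μ i - 1 := by
  simp [dnv]

theorem dnv_ne (i : ℕ) (μ : ℕ → ℕ) {l : ℕ} (h : l ≠ i) : dnv i μ l = μ l := by
  simp [dnv, h]

theorem dnv_upv (i : ℕ) (μ : ℕ → ℕ) : dnv i (upv i μ) = μ := by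
  funext j
  by_cases h : j = i
  · subst h
    rw [dnv_same, upv_same]; rfl
  · rw [dnv_ne _ _ h, upv_ne _ _ h]

theorem upv_dnv (i : ℕ) (μ : ℕ → ℕ) (h0 : 0 < μ i) : upv i (dnv i μ) = μ := by
  funext j
  by_cases h : j = i
  · subst h
    rw [upv_same, dnv_same]; omega
  · rw [upv_ne _ _ h, dnv_ne _ _ h]

theorem upv_dnv_comm (i l : ℕ) (μ : ℕ → ℕ) (h : l ≠ i) :
    upv i (dnv l μ) = dnv l (upv i μ) := by
  funext j
  by_cases hi : j = i
  · subst hi
    rw [upv_same, dnv_ne _ _ (Ne.symm h), dnv_ne _ _ (Ne.symm h), upv_same]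
  · by_cases hl : j = l
    · subst hl
      rw [upv_ne _ _ hi, dnv_same, dnv_same, upv_ne _ _ hi]
    · rw [upv_ne _ _ hi, dnv_ne _ _ hl, dnv_ne _ _ hl, upv_ne _ _ hi]

theorem st_star (i l : ℕ) (μ : ℕ → ℕ) (h : l ≠ i) (hl : 0 < μ l) (hst : st μ)
    (hk : st (dnv l (upv i μ))) : st (upv i μ) ∧ st (dnv l μ) := by
  constructor
  · intro a b hab
    have h1 := hst a b hab
    have h2 := hk a b hab
    have e1 : ∀ j, upv i μ j = if j = i then μ j + 1 else μ j := by
      intro j
      by_cases hj : j = i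
      · subst hj; simp [upv_same]
      · simp [upv_ne _ _ hj, hj]
    have e2 : ∀ j, dnv l (upv i μ) j = if j = l then μ j - 1 else if j = i then μ j + 1 else μ j := by
      intro j
      by_cases hj : j = l
      · subst hj; simp [dnv_same, upv_ne _ _ h]
      · simp [dnv_ne _ _ hj, hj, e1]
    rw [e1, e1]
    rw [e2, e2] at h2
    split_ifs at h2 ⊢ <;> subst_vars <;>
      first | omega | (rcases h2 with h2 | h2 <;> first | exact h2.elim | omega | exact Or.inr (by omega))
  · intro a b hab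
    have h1 := hst a b hab
    have h2 := hk a b hab
    have e1 : ∀ j, upv i μ j = if j = i then μ j + 1 else μ j := by
      intro j
      by_cases hj : j = i
      · subst hj; simp [upv_same]
      · simp [upv_ne _ _ hj, hj]
    have e2 : ∀ j, dnv l (upv i μ) j = if j = l then μ j - 1 else if j = i then μ j + 1 else μ j := by
      intro j
      by_cases hj : j = l
      · subst hj; simp [dnv_same, upv_ne _ _ h]
      · simp [dnv_ne _ _ hj, hj, e1]
    have e3 : ∀ j, dnv l μ j = if j = l then μ j - 1 else μ j := by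
      intro j
      by_cases hj : j = l
      · subst hj; simp [dnv_same]
      · simp [dnv_ne _ _ hj, hj]
    rw [e3, e3]
    rw [e2, e2] at h2
    split_ifs at h2 ⊢ <;> subst_vars <;>
      first | omega | (rcases h2 with h2 | h2 <;> first | exact h2.elim | omega | exact Or.inr (by omega))

theorem Fh_mu (K : ℕ) (μ : ℕ → ℕ) (hst : st μ) (h0 : ∀ i, K ≤ i → μ i = 0) :
    Fh (K + 1) μ = FF K μ := by
  unfold Fh
  rw [if_pos hst, FF_ext K μ (h0 K le_rfl)]

open Classical in
theorem Fh_upv (K : ℕ) (μ : ℕ → ℕ) (hst : st μ) (h0 : ∀ i, K ≤ i → μ i = 0) (i : ℕ)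
    (hi : i ∈ range (K + 1)) :
    Fh (K + 1) (upv i μ) = (if st (upv i μ) then FF K μ else 0)
      + ∑ l ∈ range K, (if l ≠ i ∧ 0 < μ l then Fh (K + 1) (dnv l (upv i μ)) else 0) := by
  have hiK : i ≤ K := by simpa [Nat.lt_succ_iff] using hi
  by_cases hs : st (upv i μ)
  · rw [if_pos hs]
    have hz : ∀ j, K + 1 ≤ j → upv i μ j = 0 := by
      intro j hj
      rw [upv_ne _ _ (by omega), h0 j (by omega)]
    have hp : 0 < ∑ j ∈ range (K + 1), upv i μ j := by
      apply Finset.sum_pos' (fun _ _ => Nat.zero_le _)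
      exact ⟨i, hi, by rw [upv_same]; omega⟩
    have h1 := FF_rec (K + 1) (upv i μ) hs hz hp
    have h2 : Fh (K + 1) (upv i μ) = FF (K + 1) (upv i μ) := by
      unfold Fh; rw [if_pos hs]
    rw [h2, ← h1]
    have h3 : ∀ l ∈ range (K + 1), (if 0 < upv i μ l then Fh (K + 1) (dnv l (upv i μ)) else 0)
        = (if l = i then FF K μ else 0)
          + (if l ≠ i ∧ 0 < μ l then Fh (K + 1) (dnv l (upv i μ)) else 0) := by
      intro l _
      by_cases hl : l = i
      · subst hl
        rw [dnv_upv, upv_same, if_pos (by omega), if_pos rfl, if_neg (by tauto), add_zero,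
          Fh_mu K μ hst h0]
      · rw [upv_ne _ _ hl, if_neg hl, zero_add]
        by_cases hp : 0 < μ l
        · rw [if_pos hp, if_pos ⟨hl, hp⟩]
        · rw [if_neg hp, if_neg (by tauto)]
    rw [Finset.sum_congr rfl h3, Finset.sum_add_distrib, Finset.sum_ite_eq' (range (K + 1)) i,
      if_pos hi, Finset.sum_range_succ, if_neg (by rw [h0 K le_rfl]; omega), add_zero]
  · rw [if_neg hs, zero_add]
    have h2 : Fh (K + 1) (upv i μ) = 0 := by
      unfold Fh; rw [if_neg hs]
    rw [h2]
    symm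
    apply Finset.sum_eq_zero
    intro l _
    split_ifs with hc
    · unfold Fh
      rw [if_neg]
      intro hk
      exact hs (st_star i l μ hc.1 hc.2 hst hk).1
    · rfl

open Classical in
theorem Phi_rec (K : ℕ) (w : ℕ → ℕ → ℚ) (μ : ℕ → ℕ) (hst : st μ) (h0 : ∀ i, K ≤ i → μ i = 0) :
    ∑ i ∈ range (K + 1), w i (μ i) * Fh (K + 1) (upv i μ)
      = FF K μ * (∑ i ∈ range (K + 1), (if st (upv i μ) then w i (μ i) else 0)
          - ∑ i ∈ range K, (if 0 < μ i ∧ st (dnv i μ) then w i (μ i - 1) else 0))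
        + ∑ l ∈ range K, (if 0 < μ l ∧ st (dnv l μ) then
            ∑ i ∈ range (K + 1), w i (dnv l μ i) * Fh (K + 1) (upv i (dnv l μ)) else 0) := by
  have hA : ∑ i ∈ range (K + 1), w i (μ i) * Fh (K + 1) (upv i μ)
      = ∑ i ∈ range (K + 1), (if st (upv i μ) then w i (μ i) else 0) * FF K μ
        + ∑ i ∈ range (K + 1), ∑ l ∈ range K,
          (if l ≠ i ∧ 0 < μ l then w i (μ i) * Fh (K + 1) (dnv l (upv i μ)) else 0) := by
    rw [← Finset.sum_add_distrib]
    refine Finset.sum_congr rfl fun i hi => ?_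
    rw [Fh_upv K μ hst h0 i hi, mul_add, Finset.mul_sum]
    congr 1
    · split_ifs <;> simp
    · refine Finset.sum_congr rfl fun l _ => ?_
      rw [mul_ite, mul_zero]
  have hC : ∑ l ∈ range K, (if 0 < μ l ∧ st (dnv l μ) then
            ∑ i ∈ range (K + 1), w i (dnv l μ i) * Fh (K + 1) (upv i (dnv l μ)) else 0)
      = ∑ l ∈ range K, (if 0 < μ l ∧ st (dnv l μ) then w l (μ l - 1) else 0) * FF K μ
        + ∑ l ∈ range K, ∑ i ∈ range (K + 1),
          (if l ≠ i ∧ 0 < μ l then w i (μ i) * Fh (K + 1) (dnv l (upv i μ)) else 0) := by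
    rw [← Finset.sum_add_distrib]
    refine Finset.sum_congr rfl fun l hl => ?_
    have hlK : l < K := by simpa using hl
    by_cases hp : 0 < μ l
    · by_cases hs : st (dnv l μ)
      · rw [if_pos ⟨hp, hs⟩, if_pos ⟨hp, hs⟩]
        have h3 : ∀ i ∈ range (K + 1), w i (dnv l μ i) * Fh (K + 1) (upv i (dnv l μ))
            = (if i = l then w l (μ l - 1) * FF K μ else 0)
              + (if l ≠ i ∧ 0 < μ l then w i (μ i) * Fh (K + 1) (dnv l (upv i μ)) else 0) := by
          intro i _
          by_cases hil : i = l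
          · subst hil
            rw [dnv_same, upv_dnv _ _ hp, if_pos rfl, if_neg (by tauto), add_zero,
              Fh_mu K μ hst h0]
          · rw [dnv_ne _ _ hil, upv_dnv_comm _ _ _ (Ne.symm hil), if_neg hil, zero_add,
              if_pos ⟨Ne.symm hil, hp⟩]
        rw [Finset.sum_congr rfl h3, Finset.sum_add_distrib, Finset.sum_ite_eq' (range (K + 1)) l,
          if_pos (by simp; omega)]
      · rw [if_neg (by tauto), if_neg (by tauto), zero_mul, zero_add]
        symm
        apply Finset.sum_eq_zero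
        intro i _
        split_ifs with hc
        · have : Fh (K + 1) (dnv l (upv i μ)) = 0 := by
            unfold Fh
            rw [if_neg]
            intro hk
            exact hs (st_star i l μ hc.1 hc.2 hst hk).2
          rw [this, mul_zero]
        · rfl
    · rw [if_neg (by tauto), if_neg (by tauto), zero_mul, zero_add]
      symm
      apply Finset.sum_eq_zero
      intro i _
      rw [if_neg (by tauto)]
  rw [hA, hC, Finset.sum_comm (s := range (K + 1)) (t := range K), ← Finset.sum_mul,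
    ← Finset.sum_mul]
  ring


end Pool.Agent.H562C
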