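import Pool.Agent.H562C.Defs



open Finset

namespace Pool.Agent.H562C


namespace h685

theorem Sw_snoc {N K : ℕ} (w : Fin N → Fin K) (i : Fin K) (j : ℕ) (a : Fin K) :
    Sw (Fin.snoc w i : Fin (N + 1) → Fin K) j a =
      Sw w j a + if N < j ∧ i = a then 1 else 0 := by
  unfold Sw
  rw [Finset.card_filter, Finset.card_filter, Fin.sum_univ_castSucc]
  congr 1
  · refine Finset.sum_congr rfl fun t _ => ?_
    rw [Fin.snoc_castSucc, Fin.val_castSucc]
  · rw [Fin.snoc_last, Fin.val_last]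

theorem Sw_last {N K : ℕ} (w : Fin N → Fin K) (a : Fin K) : Sw w (N + 1) a = Sw w N a := by
  unfold Sw
  congr 1
  apply Finset.filter_congr
  intro t _
  have h1 : (t : ℕ) < N := t.2
  constructor
  · rintro ⟨_, h2⟩
    exact ⟨h1, h2⟩
  · rintro ⟨_, h2⟩
    exact ⟨by omega, h2⟩

theorem mem_snoc {K : ℕ} (V : (Fin K → ℕ) → Prop) (N : ℕ) (μ : Fin K → ℕ) (hV : V μ)
    (w : Fin N → Fin K) (i : Fin K) :
    ((∀ j : ℕ, j ≤ N + 1 → V (Sw (Fin.snoc w i : Fin (N + 1) → Fin K) j)) ∧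
      ∀ a : Fin K, Sw (Fin.snoc w i : Fin (N + 1) → Fin K) (N + 1) a = μ a) ↔
    (0 < μ i ∧ w ∈ Wd V N (Function.update μ i (μ i - 1))) := by
  classical
  have hle : ∀ j : ℕ, j ≤ N → Sw (Fin.snoc w i : Fin (N + 1) → Fin K) j = Sw w j := by
    intro j hj
    funext a
    rw [Sw_snoc, if_neg (fun h => absurd h.1 (by omega)), add_zero]
  have hl : ∀ a, Sw (Fin.snoc w i : Fin (N + 1) → Fin K) (N + 1) a =
      Sw w N a + if i = a then 1 else 0 := by
    intro a
    rw [Sw_snoc, Sw_last]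
    congr 1
    by_cases h : i = a
    · rw [if_pos h, if_pos ⟨by omega, h⟩]
    · rw [if_neg h, if_neg (fun h2 => h h2.2)]
  have hmem : w ∈ Wd V N (Function.update μ i (μ i - 1)) ↔
      ((∀ j : ℕ, j ≤ N → V (Sw w j)) ∧ ∀ a : Fin K, Sw w N a =
        Function.update μ i (μ i - 1) a) := by
    unfold Wd
    rw [Finset.mem_filter]
    exact ⟨fun h => h.2, fun h => ⟨Finset.mem_univ _, h⟩⟩
  rw [hmem]
  constructor
  · rintro ⟨h1, h2⟩
    have h3 := h2 i
    rw [hl, if_pos rfl] at h3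
    refine ⟨by omega, ?_, ?_⟩
    · intro j hj
      rw [← hle j hj]
      exact h1 j (by omega)
    · intro a
      have h4 := h2 a
      rw [hl] at h4
      by_cases h : a = i
      · subst h
        rw [Function.update_self]
        omega
      · rw [Function.update_of_ne h]
        rw [if_neg (fun h5 => h h5.symm)] at h4
        omega
  · rintro ⟨h0, h1, h2⟩
    have h3 : ∀ a : Fin K, Sw (Fin.snoc w i : Fin (N + 1) → Fin K) (N + 1) a = μ a := by
      intro a
      rw [hl, h2 a]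
      by_cases h : a = i
      · subst h
        rw [Function.update_self, if_pos rfl]
        omega
      · rw [Function.update_of_ne h, if_neg (fun h5 => h h5.symm), add_zero]
    refine ⟨?_, h3⟩
    intro j hj
    rcases Nat.lt_or_ge N j with h4 | h4
    · have h5 : j = N + 1 := by omega
      have h6 : Sw (Fin.snoc w i : Fin (N + 1) → Fin K) j = μ := by
        rw [h5]
        exact funext h3
      rw [h6]
      exact hV
    · rw [hle j h4]
      exact h1 j h4

theorem sum_snoc {M : Type} [AddCommMonoid M] {K : ℕ} (V : (Fin K → ℕ) → Prop) (N : ℕ)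
    (μ : Fin K → ℕ) (hV : V μ) (G : (Fin (N + 1) → Fin K) → M) :
    ∑ w ∈ Wd V (N + 1) μ, G w = ∑ i : Fin K, (if 0 < μ i then
      ∑ w ∈ Wd V N (Function.update μ i (μ i - 1)), G (Fin.snoc w i) else 0) := by
  classical
  have h1 : Wd V (N + 1) μ = univ.filter (fun w : Fin (N + 1) → Fin K =>
      (∀ j : ℕ, j ≤ N + 1 → V (Sw w j)) ∧ ∀ i : Fin K, Sw w (N + 1) i = μ i) := by
    unfold Wd
    congr
  rw [h1, Finset.sum_filter]
  rw [← Equiv.sum_comp (Fin.snocEquiv (fun _ : Fin (N + 1) => Fin K)), Fintype.sum_prod_type]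
  refine Finset.sum_congr rfl fun i _ => ?_
  by_cases hi : 0 < μ i
  · rw [if_pos hi]
    have h2 : ∑ w ∈ Wd V N (Function.update μ i (μ i - 1)), G (Fin.snoc w i) =
        ∑ w : Fin N → Fin K, if w ∈ Wd V N (Function.update μ i (μ i - 1)) then
          G (Fin.snoc w i) else 0 := by
      rw [← Finset.sum_filter]
      congr 1
      ext w
      simp
    rw [h2]
    refine Finset.sum_congr rfl fun w _ => ?_
    apply if_congr _ rfl rfl
    refine (mem_snoc V N μ hV w i).trans ?_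
    exact ⟨fun h => h.2, fun h => ⟨hi, h⟩⟩
  · rw [if_neg hi]
    apply Finset.sum_eq_zero
    intro w _
    rw [if_neg]
    intro h
    exact hi ((mem_snoc V N μ hV w i).1 h).1

end h685

theorem Wd_empty {K : ℕ} (V : (Fin K → ℕ) → Prop) (N : ℕ) (μ : Fin K → ℕ) (hV : ¬ V μ) :
    Wd V N μ = ∅ := by
  classical
  unfold Wd
  rw [Finset.filter_eq_empty_iff]
  intro w _ h
  apply hV
  have h1 : Sw w N = μ := funext h.2
  rw [← h1]
  exact h.1 N le_rfl

theorem Wd_card_succ {K : ℕ} (V : (Fin K → ℕ) → Prop) (N : ℕ) (μ : Fin K → ℕ) (hV : V μ) :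
    (Wd V (N + 1) μ).card
      = ∑ i : Fin K, (if 0 < μ i then (Wd V N (Function.update μ i (μ i - 1))).card else 0) := by
  rw [Finset.card_eq_sum_ones, h685.sum_snoc V N μ hV]
  refine Finset.sum_congr rfl fun i _ => ?_
  apply if_congr Iff.rfl _ rfl
  rw [Finset.card_eq_sum_ones]

theorem Wd_sum_succ {K : ℕ} (V : (Fin K → ℕ) → Prop) (N : ℕ) (μ : Fin K → ℕ) (hV : V μ)
    (D : (Fin K → ℕ) → ℚ) :
    ∑ w ∈ Wd V (N + 1) μ, ∑ j ∈ range (N + 2), D (Sw w j)
      = ∑ i : Fin K, (if 0 < μ i then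
          ∑ w ∈ Wd V N (Function.update μ i (μ i - 1)), ∑ j ∈ range (N + 1), D (Sw w j) else 0)
        + D μ * (Wd V (N + 1) μ).card := by
  classical
  have h1 : ∀ w ∈ Wd V (N + 1) μ, ∑ j ∈ range (N + 2), D (Sw w j) =
      ∑ j ∈ range (N + 1), D (Sw w j) + D μ := by
    intro w hw
    rw [Finset.sum_range_succ]
    unfold Wd at hw
    rw [Finset.mem_filter] at hw
    have h2 : Sw w (N + 1) = μ := funext hw.2.2
    rw [h2]
  rw [Finset.sum_congr rfl h1, Finset.sum_add_distrib, Finset.sum_const, nsmul_eq_mul,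
    mul_comm (D μ)]
  congr 1
  rw [h685.sum_snoc V N μ hV]
  refine Finset.sum_congr rfl fun i _ => ?_
  apply if_congr Iff.rfl _ rfl
  refine Finset.sum_congr rfl fun w _ => ?_
  refine Finset.sum_congr rfl fun j hj => ?_
  rw [Finset.mem_range] at hj
  congr 1
  funext a
  rw [h685.Sw_snoc, if_neg (fun h => absurd h.1 (by omega)), add_zero]


end Pool.Agent.H562C
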