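import Pool.Agent.H562C.Defs



open Finset

namespace Pool.Agent.H562C


namespace JS161

theorem ex_lt {K : ℕ} (f : Fin K → ℕ) {i : ℕ} (hi : i < K) : ex f i = f ⟨i, hi⟩ := by
  unfold ex
  rw [dif_pos hi]

theorem ex_ge {K : ℕ} (f : Fin K → ℕ) {i : ℕ} (hi : K ≤ i) : ex f i = 0 := by
  unfold ex
  rw [dif_neg (by omega)]

theorem ex_st {K : ℕ} (f : Fin K → ℕ) :
    st (ex f) ↔ ∀ i j : Fin K, i < j → f j = 0 ∨ f j < f i := by
  constructor
  · intro h i j hij
    have h1 := h i j hij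
    rw [ex_lt f i.2, ex_lt f j.2] at h1
    exact h1
  · intro h i j hij
    by_cases hj : j < K
    · rw [ex_lt f hj, ex_lt f (hij.trans hj)]
      exact h _ _ hij
    · left
      exact ex_ge f (by omega)

theorem ex_upd {K : ℕ} (f : Fin K → ℕ) {i : ℕ} (hi : i < K) (v : ℕ) :
    ex (Function.update f ⟨i, hi⟩ v) = Function.update (ex f) i v := by
  funext j
  by_cases hj : j < K
  · rw [ex_lt _ hj]
    by_cases hji : j = i
    · subst hji
      simp
    · rw [Function.update_of_ne hji, Function.update_of_ne (by simpa using hji), ex_lt _ hj]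
  · rw [ex_ge _ (by omega), Function.update_of_ne (by omega), ex_ge _ (by omega)]

theorem mem_Jn {n r : ℕ} (μ : Fin r → Fin (n + 1)) :
    μ ∈ Jn n r ↔ (∀ i : Fin r, (μ i : ℕ) ≤ n - 2 * (i : ℕ)) ∧ st (ex (fun a => (μ a : ℕ))) := by
  unfold Jn
  rw [ex_st]
  simp only [mem_filter, mem_univ, true_and]

/-- change of one value -/
def chg {n r : ℕ} (i : Fin r) (v : ℕ) (μ : Fin r → Fin (n + 1)) : Fin r → Fin (n + 1) :=
  if h : v < n + 1 then Function.update μ i ⟨v, h⟩ else μ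

theorem ex_chg {n r : ℕ} {i : ℕ} (hi : i < r) (v : ℕ) (hv : v < n + 1)
    (μ : Fin r → Fin (n + 1)) :
    ex (fun a => (chg ⟨i, hi⟩ v μ a : ℕ)) = Function.update (ex (fun a => (μ a : ℕ))) i v := by
  rw [← ex_upd _ hi]
  congr 1
  funext a
  unfold chg
  rw [dif_pos hv]
  by_cases ha : a = ⟨i, hi⟩
  · subst ha
    simp
  · rw [Function.update_of_ne ha, Function.update_of_ne ha]

theorem chg_mem {n r : ℕ} {i : ℕ} (hi : i < r) (v : ℕ) (hv : v ≤ n - 2 * i)
    (μ : Fin r → Fin (n + 1)) (hμ : μ ∈ Jn n r)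
    (hst : st (Function.update (ex (fun a => (μ a : ℕ))) i v)) :
    chg ⟨i, hi⟩ v μ ∈ Jn n r := by
  rw [mem_Jn] at hμ ⊢
  have hv' : v < n + 1 := by omega
  rw [ex_chg hi v hv']
  refine ⟨?_, hst⟩
  intro j
  unfold chg
  rw [dif_pos hv']
  by_cases hj : j = ⟨i, hi⟩
  · subst hj
    simpa using hv
  · rw [Function.update_of_ne hj]
    exact hμ.1 j

theorem chg_chg {n r : ℕ} {i : ℕ} (hi : i < r) (v : ℕ) (u : ℕ) (hv : v < n + 1)
    (μ : Fin r → Fin (n + 1)) (hu : u = ex (fun a => (μ a : ℕ)) i) :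
    chg ⟨i, hi⟩ u (chg ⟨i, hi⟩ v μ) = μ := by
  rw [ex_lt _ hi] at hu
  have hu' : u < n + 1 := by
    rw [hu]
    exact (μ ⟨i, hi⟩).2
  unfold chg
  rw [dif_pos hv, dif_pos hu']
  funext a
  by_cases ha : a = ⟨i, hi⟩
  · subst ha
    rw [Function.update_self]
    apply Fin.ext
    exact hu
  · rw [Function.update_of_ne ha, Function.update_of_ne ha]

open Classical in
theorem key (n k : ℕ) (i : ℕ) (hi : i < k + 1) (w : ℕ → ℕ → ℚ) :
    ∑ μ ∈ Jn n (k + 1), (if st (upv i (ex (fun a => (μ a : ℕ)))) ∧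
        ex (fun a => (μ a : ℕ)) i < n - 2 * i then w i (ex (fun a => (μ a : ℕ)) i) else 0) =
      ∑ μ ∈ Jn n (k + 1), (if 0 < ex (fun a => (μ a : ℕ)) i ∧
        st (dnv i (ex (fun a => (μ a : ℕ)))) then w i (ex (fun a => (μ a : ℕ)) i - 1)
          else 0) := by
  rw [← Finset.sum_filter, ← Finset.sum_filter]
  refine Finset.sum_nbij' (fun μ => chg ⟨i, hi⟩ (ex (fun a => (μ a : ℕ)) i + 1) μ)
    (fun μ => chg ⟨i, hi⟩ (ex (fun a => (μ a : ℕ)) i - 1) μ) ?_ ?_ ?_ ?_ ?_
  · intro μ hμ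
    rw [mem_filter] at hμ
    obtain ⟨hJ, hst, hlt⟩ := hμ
    rw [mem_filter]
    have hv : ex (fun a => (μ a : ℕ)) i + 1 < n + 1 := by omega
    refine ⟨chg_mem hi _ (by omega) μ hJ hst, ?_, ?_⟩
    · rw [ex_chg hi _ hv, Function.update_self]
      omega
    · rw [ex_chg hi _ hv]
      unfold dnv
      rw [Function.update_self, Function.update_idem, Nat.add_sub_cancel,
        Function.update_eq_self]
      exact ((mem_Jn μ).1 hJ).2
  · intro μ hμ
    rw [mem_filter] at hμ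
    obtain ⟨hJ, hpos, hst⟩ := hμ
    rw [mem_filter]
    have hb : ex (fun a => (μ a : ℕ)) i ≤ n - 2 * i := by
      rw [ex_lt _ hi]
      exact ((mem_Jn μ).1 hJ).1 ⟨i, hi⟩
    have hv : ex (fun a => (μ a : ℕ)) i - 1 < n + 1 := by omega
    refine ⟨chg_mem hi _ (by omega) μ hJ hst, ?_, ?_⟩
    · rw [ex_chg hi _ hv]
      unfold upv
      rw [Function.update_self, Function.update_idem, Nat.sub_add_cancel hpos,
        Function.update_eq_self]
      exact ((mem_Jn μ).1 hJ).2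
    · rw [ex_chg hi _ hv, Function.update_self]
      omega
  · intro μ hμ
    rw [mem_filter] at hμ
    obtain ⟨hJ, hst, hlt⟩ := hμ
    have hv : ex (fun a => (μ a : ℕ)) i + 1 < n + 1 := by omega
    refine chg_chg hi _ _ hv μ ?_
    rw [ex_chg hi _ hv, Function.update_self]
    omega
  · intro μ hμ
    rw [mem_filter] at hμ
    obtain ⟨hJ, hpos, hst⟩ := hμ
    have hb : ex (fun a => (μ a : ℕ)) i ≤ n - 2 * i := by
      rw [ex_lt _ hi]
      exact ((mem_Jn μ).1 hJ).1 ⟨i, hi⟩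
    have hv : ex (fun a => (μ a : ℕ)) i - 1 < n + 1 := by omega
    refine chg_chg hi _ _ hv μ ?_
    rw [ex_chg hi _ hv, Function.update_self]
    omega
  · intro μ hμ
    rw [mem_filter] at hμ
    obtain ⟨hJ, hst, hlt⟩ := hμ
    have hv : ex (fun a => (μ a : ℕ)) i + 1 < n + 1 := by omega
    rw [ex_chg hi _ hv, Function.update_self, Nat.add_sub_cancel]

end JS161

open Classical in
theorem J_sum (n k : ℕ) (hk : 2 * k < n) (w : ℕ → ℕ → ℚ) :
    ∑ μ ∈ Jn n (k + 1),
      (∑ i ∈ range (k + 2), (if st (upv i (ex (fun a => (μ a : ℕ)))) then w i (ex (fun a => (μ a : ℕ)) i) else 0)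
        - ∑ i ∈ range (k + 1), (if 0 < ex (fun a => (μ a : ℕ)) i ∧ st (dnv i (ex (fun a => (μ a : ℕ))))
            then w i (ex (fun a => (μ a : ℕ)) i - 1) else 0))
      = ∑ μ ∈ Jn n (k + 1),
          (∑ i ∈ range (k + 1), (if st (upv i (ex (fun a => (μ a : ℕ)))) ∧ ex (fun a => (μ a : ℕ)) i = n - 2 * i
              then w i (n - 2 * i) else 0)
            + (if st (upv (k + 1) (ex (fun a => (μ a : ℕ)))) then w (k + 1) 0 else 0)) := by
  have hL : ∀ μ ∈ Jn n (k + 1),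
      (∑ i ∈ range (k + 2), (if st (upv i (ex (fun a => (μ a : ℕ)))) then w i (ex (fun a => (μ a : ℕ)) i) else 0)
        - ∑ i ∈ range (k + 1), (if 0 < ex (fun a => (μ a : ℕ)) i ∧ st (dnv i (ex (fun a => (μ a : ℕ))))
            then w i (ex (fun a => (μ a : ℕ)) i - 1) else 0)) =
      (∑ i ∈ range (k + 1), (if st (upv i (ex (fun a => (μ a : ℕ)))) ∧ ex (fun a => (μ a : ℕ)) i = n - 2 * i
              then w i (n - 2 * i) else 0)
            + (if st (upv (k + 1) (ex (fun a => (μ a : ℕ)))) then w (k + 1) 0 else 0)) +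
      (∑ i ∈ range (k + 1), (if st (upv i (ex (fun a => (μ a : ℕ)))) ∧
          ex (fun a => (μ a : ℕ)) i < n - 2 * i then w i (ex (fun a => (μ a : ℕ)) i) else 0) -
       ∑ i ∈ range (k + 1), (if 0 < ex (fun a => (μ a : ℕ)) i ∧ st (dnv i (ex (fun a => (μ a : ℕ))))
            then w i (ex (fun a => (μ a : ℕ)) i - 1) else 0)) := by
    intro μ hμ
    rw [Finset.sum_range_succ _ (k + 1)]
    rw [JS161.ex_ge (fun a => (μ a : ℕ)) (le_refl (k + 1))]
    have hs : ∑ i ∈ range (k + 1), (if st (upv i (ex (fun a => (μ a : ℕ)))) then w i (ex (fun a => (μ a : ℕ)) i) else 0) =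
        ∑ i ∈ range (k + 1), (if st (upv i (ex (fun a => (μ a : ℕ)))) ∧ ex (fun a => (μ a : ℕ)) i = n - 2 * i
              then w i (n - 2 * i) else 0) +
        ∑ i ∈ range (k + 1), (if st (upv i (ex (fun a => (μ a : ℕ)))) ∧
          ex (fun a => (μ a : ℕ)) i < n - 2 * i then w i (ex (fun a => (μ a : ℕ)) i) else 0) := by
      rw [← Finset.sum_add_distrib]
      refine Finset.sum_congr rfl fun i hi => ?_
      rw [mem_range] at hi
      have hb : ex (fun a => (μ a : ℕ)) i ≤ n - 2 * i := by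
        rw [JS161.ex_lt _ hi]
        exact ((JS161.mem_Jn μ).1 hμ).1 ⟨i, hi⟩
      by_cases h1 : st (upv i (ex (fun a => (μ a : ℕ))))
      · rcases hb.eq_or_lt with h2 | h2
        · rw [if_pos h1, if_pos ⟨h1, h2⟩, if_neg (fun h => absurd h.2 (by omega)), h2, add_zero]
        · rw [if_pos h1, if_neg (fun h => absurd h.2 (by omega)), if_pos ⟨h1, h2⟩, zero_add]
      · rw [if_neg h1, if_neg (fun h => h1 h.1), if_neg (fun h => h1 h.1), add_zero]
    rw [hs]
    ring
  rw [Finset.sum_congr rfl hL, Finset.sum_add_distrib, Finset.sum_sub_distrib]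
  rw [Finset.sum_comm (s := Jn n (k + 1)) (t := range (k + 1))
      (f := fun μ i => (if st (upv i (ex (fun a => (μ a : ℕ)))) ∧
          ex (fun a => (μ a : ℕ)) i < n - 2 * i then w i (ex (fun a => (μ a : ℕ)) i) else 0)),
    Finset.sum_comm (s := Jn n (k + 1)) (t := range (k + 1))
      (f := fun μ i => (if 0 < ex (fun a => (μ a : ℕ)) i ∧ st (dnv i (ex (fun a => (μ a : ℕ))))
            then w i (ex (fun a => (μ a : ℕ)) i - 1) else 0)),
    Finset.sum_congr rfl (fun i hi => JS161.key n k i (mem_range.1 hi) w), sub_self, add_zero]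

end Pool.Agent.H562C
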