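import Pool.Agent.H562C.Defs



open Finset

namespace Pool.Agent.H562C


/-- strict partitions inside the trapezoid, as functions with natural values -/
def SS (n r : ℕ) : Finset (Fin r → ℕ) :=
  (Fintype.piFinset fun i : Fin r => range (n - 2 * (i : ℕ) + 1)).filter
    (fun μ => ∀ i j : Fin r, i < j → μ j = 0 ∨ μ j < μ i)

theorem mem_SS {n r : ℕ} {μ : Fin r → ℕ} : μ ∈ SS n r ↔
    (∀ i : Fin r, μ i ≤ n - 2 * (i : ℕ)) ∧ ∀ i j : Fin r, i < j → μ j = 0 ∨ μ j < μ i := by
  simp only [SS, mem_filter, Fintype.mem_piFinset, mem_range, Nat.lt_succ_iff]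

theorem jn_filter (n r : ℕ) (P : (Fin r → ℕ) → Prop) [DecidablePred P] :
    ((Jn n r).filter (fun μ => P (fun i => (μ i : ℕ)))).card = ((SS n r).filter P).card := by
  apply Finset.card_nbij' (fun μ i => (μ i : ℕ))
    (fun ν i => (⟨min (ν i) n, by omega⟩ : Fin (n + 1)))
  · intro μ hμ
    simp only [Jn, coe_filter, mem_filter, mem_univ, true_and, Set.mem_ofPred_eq] at hμ
    simp only [coe_filter, Set.mem_ofPred_eq]
    exact ⟨mem_SS.2 ⟨hμ.1.1, hμ.1.2⟩, hμ.2⟩
  · intro ν hν
    simp only [coe_filter, Set.mem_ofPred_eq] at hν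
    obtain ⟨h1, h2⟩ := hν
    rw [mem_SS] at h1
    have e : ∀ i, min (ν i) n = ν i := by
      intro i
      have := h1.1 i
      omega
    simp only [Jn, coe_filter, mem_filter, mem_univ, true_and, Set.mem_ofPred_eq, e]
    exact ⟨⟨h1.1, h1.2⟩, h2⟩
  · intro μ hμ
    funext i
    apply Fin.ext
    have := (μ i).2
    simp only
    omega
  · intro ν hν
    simp only [coe_filter, Set.mem_ofPred_eq] at hν
    obtain ⟨h1, h2⟩ := hν
    rw [mem_SS] at h1
    funext i
    have := h1.1 i
    simp only
    omega

theorem jn_card (n r : ℕ) : (Jn n r).card = (SS n r).card := by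
  have h := jn_filter n r (fun _ => True)
  simpa using h

theorem ss_zero (n r : ℕ) (P : (Fin r → ℕ) → Prop) [DecidablePred P] :
    ((SS n (r + 1)).filter (fun μ => μ (Fin.last r) = 0 ∧ P (fun i => μ i.castSucc))).card =
      ((SS n r).filter P).card := by
  apply Finset.card_nbij' (fun μ i => μ i.castSucc)
    (fun ν => (Fin.snoc (α := fun _ => ℕ) ν 0 : Fin (r + 1) → ℕ))
  · intro μ hμ
    simp only [coe_filter, Set.mem_ofPred_eq, mem_SS] at hμ ⊢
    obtain ⟨⟨h1, h2⟩, h3, h4⟩ := hμ
    refine ⟨⟨fun i => ?_, fun i j hij => ?_⟩, h4⟩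
    · have := h1 i.castSucc
      simpa using this
    · exact h2 i.castSucc j.castSucc (by simpa using hij)
  · intro ν hν
    simp only [coe_filter, Set.mem_ofPred_eq, mem_SS] at hν ⊢
    obtain ⟨⟨h1, h2⟩, h3⟩ := hν
    refine ⟨⟨fun i => ?_, fun i j hij => ?_⟩, by simp, ?_⟩
    · refine Fin.lastCases ?_ (fun i => ?_) i
      · simp
      · simpa using h1 i
    · revert hij
      refine Fin.lastCases ?_ (fun j => ?_) j
      · intro _
        left
        simp
      · refine Fin.lastCases ?_ (fun i => ?_) i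
        · intro h
          exact absurd h (by simpa using (Fin.castSucc_lt_last j).le)
        · intro h
          simpa using h2 i j (by simpa using h)
    · simpa using h3
  · intro μ hμ
    simp only [coe_filter, Set.mem_ofPred_eq, mem_SS] at hμ
    obtain ⟨_, h3, _⟩ := hμ
    funext i
    refine Fin.lastCases ?_ (fun i => ?_) i
    · simp [h3]
    · simp
  · intro ν hν
    funext i
    simp

theorem ss_shift (n r k : ℕ) (h : 2 * r < n) :
    ((SS n (r + 1)).filter (fun μ => k + 1 ≤ μ (Fin.last r))).card =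
      ((SS (n - 1) (r + 1)).filter
        (fun ν => (∀ i j : Fin (r + 1), i < j → ν j < ν i) ∧ k ≤ ν (Fin.last r))).card := by
  have pos : ∀ μ : Fin (r + 1) → ℕ, (∀ i j : Fin (r + 1), i < j → μ j = 0 ∨ μ j < μ i) →
      k + 1 ≤ μ (Fin.last r) → ∀ i, 1 ≤ μ i := by
    intro μ h1 h2 i
    rcases eq_or_lt_of_le (Fin.le_last i) with rfl | h3
    · omega
    · rcases h1 i _ h3 with h4 | h4 <;> omega
  apply Finset.card_nbij' (fun μ i => μ i - 1) (fun ν i => ν i + 1)
  · intro μ hμ
    simp only [coe_filter, Set.mem_ofPred_eq, mem_SS] at hμ ⊢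
    obtain ⟨⟨h1, h2⟩, h3⟩ := hμ
    have hp := pos μ h2 h3
    have hst : ∀ i j : Fin (r + 1), i < j → μ j - 1 < μ i - 1 := by
      intro i j hij
      have := hp i
      have := hp j
      rcases h2 i j hij with h4 | h4 <;> omega
    refine ⟨⟨fun i => ?_, fun i j hij => Or.inr (hst i j hij)⟩, hst, by omega⟩
    have := h1 i
    omega
  · intro ν hν
    simp only [coe_filter, Set.mem_ofPred_eq, mem_SS] at hν ⊢
    obtain ⟨⟨h1, h2⟩, h3, h4⟩ := hν
    refine ⟨⟨fun i => ?_, fun i j hij => Or.inr ?_⟩, by omega⟩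
    · have := h1 i
      have := i.2
      omega
    · have := h3 i j hij
      omega
  · intro μ hμ
    simp only [coe_filter, Set.mem_ofPred_eq, mem_SS] at hμ
    obtain ⟨⟨h1, h2⟩, h3⟩ := hμ
    have hp := pos μ h2 h3
    funext i
    have := hp i
    simp only
    omega
  · intro ν hν
    funext i
    simp

/-- splitting according to the last entry -/
theorem ss_split (n r : ℕ) : (SS n (r + 1)).card =
    (SS n r).card + ((SS n (r + 1)).filter (fun μ => 0 + 1 ≤ μ (Fin.last r))).card := by
  have h1 := Finset.card_filter_add_card_filter_not (s := SS n (r + 1))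
    (fun μ => μ (Fin.last r) = 0)
  have h2 := ss_zero n r (fun _ => True)
  simp only [and_true, filter_true] at h2
  rw [h2] at h1
  rw [← h1]
  congr 2
  ext μ
  simp only [mem_filter]
  have : (¬ μ (Fin.last r) = 0) ↔ 0 + 1 ≤ μ (Fin.last r) := by omega
  rw [this]

theorem ss_big (n r : ℕ) (h : n ≤ 2 * r) :
    ((SS n (r + 1)).filter (fun μ => 0 + 1 ≤ μ (Fin.last r))).card = 0 := by
  rw [card_eq_zero, filter_eq_empty_iff]
  intro μ hμ
  have := (mem_SS.1 hμ).1 (Fin.last r)
  rw [Fin.val_last] at this
  omega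

theorem ss_one (m : ℕ) : ((SS m 1).filter
    (fun ν => (∀ i j : Fin 1, i < j → ν j < ν i) ∧ 0 ≤ ν (Fin.last 0))).card =
      (SS m 1).card := by
  congr 1
  apply filter_true_of_mem
  intro ν _
  refine ⟨fun i j hij => ?_, Nat.zero_le _⟩
  exact absurd hij (by rw [Subsingleton.elim i j]; exact lt_irrefl _)

theorem ss_two (m r : ℕ) : ((SS m (r + 1 + 1)).filter
    (fun ν => (∀ i j : Fin (r + 1 + 1), i < j → ν j < ν i) ∧ 0 ≤ ν (Fin.last (r + 1)))).card +
      (SS m r).card = (SS m (r + 1 + 1)).card := by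
  have h1 := Finset.card_filter_add_card_filter_not (s := SS m (r + 1 + 1))
    (fun ν => (∀ i j : Fin (r + 1 + 1), i < j → ν j < ν i) ∧ 0 ≤ ν (Fin.last (r + 1)))
  rw [← h1]
  congr 1
  have h2 := ss_zero m r (fun _ => True)
  have h3 := ss_zero m (r + 1) (fun μ => μ (Fin.last r) = 0)
  simp only [and_true, filter_true] at h2
  rw [← h2, ← h3]
  congr 1
  apply filter_congr
  intro ν hν
  rw [mem_SS] at hν
  obtain ⟨g1, g2⟩ := hν
  constructor
  · rintro ⟨h4, h5⟩ ⟨h6, -⟩
    have h5' : ν (Fin.last r).castSucc = 0 := h5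
    have := h6 (Fin.last r).castSucc (Fin.last (r + 1)) (Fin.castSucc_lt_last _)
    omega
  · intro h4
    have h5 : ν (Fin.last r).castSucc = 0 := by
      by_contra h6
      apply h4
      refine ⟨fun i j hij => ?_, Nat.zero_le _⟩
      rcases eq_or_lt_of_le (Fin.le_last j) with rfl | h7
      · rcases g2 i _ hij with h8 | h8
        · rw [h8]
          have h9 : i ≤ (Fin.last r).castSucc := by
            rw [Fin.le_def]
            rw [Fin.lt_def] at hij
            simp only [Fin.val_last, Fin.val_castSucc] at hij ⊢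
            omega
          rcases eq_or_lt_of_le h9 with rfl | h10
          · omega
          · rcases g2 i _ h10 with h11 | h11
            · exact absurd h11 h6
            · omega
        · exact h8
      · have h8 : j ≤ (Fin.last r).castSucc := by
          rw [Fin.le_def]
          rw [Fin.lt_def] at h7
          simp only [Fin.val_last, Fin.val_castSucc] at h7 ⊢
          omega
        have h9 : ν j ≠ 0 := by
          rcases eq_or_lt_of_le h8 with rfl | h10
          · exact h6
          · rcases g2 j _ h10 with h11 | h11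
            · exact absurd h11 h6
            · omega
        rcases g2 i j hij with h10 | h10
        · exact absurd h10 h9
        · exact h10
    refine ⟨?_, h5⟩
    rcases g2 (Fin.last r).castSucc (Fin.last (r + 1)) (Fin.castSucc_lt_last _) with h6 | h6
    · exact h6
    · omega

theorem ss_nil (n : ℕ) : (SS n 0).card = 1 := by
  rw [card_eq_one]
  refine ⟨Fin.elim0, ?_⟩
  ext μ
  rw [mem_SS, mem_singleton]
  constructor
  · intro _
    exact Subsingleton.elim _ _
  · intro _
    exact ⟨fun i => i.elim0, fun i => i.elim0⟩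

theorem ss_card : ∀ n r : ℕ, 2 * r ≤ n + 2 → (SS n r).card = (n + 1).choose r := by
  intro n
  induction n with
  | zero =>
    intro r h
    rcases r with _ | r
    · rw [ss_nil]; rfl
    · have : r = 0 := by omega
      subst this
      rw [ss_split, ss_big 0 0 (by omega), ss_nil]
      rfl
  | succ m ihm =>
    intro r
    induction r with
    | zero => intro _; rw [ss_nil]; rfl
    | succ r ihr =>
      intro h
      have h1 := ihr (by omega)
      rw [ss_split, h1]
      rcases Nat.lt_or_ge (2 * r) (m + 1) with h2 | h2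
      · rw [ss_shift (m + 1) r 0 h2]
        simp only [Nat.add_sub_cancel]
        rcases r with _ | r
        · have h3 := ihm 1 (by omega)
          rw [ss_one, h3]
          simp [Nat.choose_one_right]
          omega
        · have h3 := ss_two m r
          have h4 := ihm r (by omega)
          have h5 := ihm (r + 1 + 1) (by omega)
          rw [h4, h5] at h3
          have h6 : (m + 1 + 1).choose (r + 1) = (m + 1).choose r + (m + 1).choose (r + 1) :=
            Nat.choose_succ_succ _ _
          have h7 : (m + 1 + 1).choose (r + 1 + 1) =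
              (m + 1).choose (r + 1) + (m + 1).choose (r + 1 + 1) := Nat.choose_succ_succ _ _
          rw [h6, h7]
          omega
      · rw [ss_big _ _ h2]
        have h3 : m + 1 = 2 * r := by omega
        rw [h3, Nat.choose_symm_half, Nat.add_zero]

theorem card_Jn (n r : ℕ) (h : 2 * r ≤ n + 2) : (Jn n r).card = (n + 1).choose r := by
  rw [jn_card]
  exact ss_card n r h

theorem card_Jn_two (n r : ℕ) (h : 2 * (r + 1) ≤ n + 1) :
    (((Jn n (r + 1)).filter (fun μ => 2 ≤ (μ (Fin.last r) : ℕ))).card : ℤ)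
      = (n.choose (r + 1) : ℤ) - n.choose r := by
  have h1 : ((Jn n (r + 1)).filter (fun μ => 2 ≤ (μ (Fin.last r) : ℕ))).card =
      ((SS n (r + 1)).filter (fun μ => 1 + 1 ≤ μ (Fin.last r))).card :=
    jn_filter n (r + 1) (fun μ => 1 + 1 ≤ μ (Fin.last r))
  rw [h1, ss_shift n r 1 (by omega)]
  have h2 : ((SS (n - 1) (r + 1)).filter
      (fun ν => (∀ i j : Fin (r + 1), i < j → ν j < ν i) ∧ 1 ≤ ν (Fin.last r))).card =
      ((SS (n - 1) (r + 1)).filter (fun ν => 0 + 1 ≤ ν (Fin.last r))).card := by
    congr 1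
    apply filter_congr
    intro ν hν
    rw [mem_SS] at hν
    obtain ⟨g1, g2⟩ := hν
    constructor
    · rintro ⟨-, h⟩
      exact h
    · intro h
      refine ⟨fun i j hij => ?_, h⟩
      rcases g2 i j hij with h3 | h3
      · exfalso
        rcases eq_or_lt_of_le (Fin.le_last j) with rfl | h4
        · omega
        · rcases g2 j _ h4 with h5 | h5 <;> omega
      · exact h3
  have h3 := ss_split (n - 1) r
  rw [ss_card (n - 1) (r + 1) (by omega), ss_card (n - 1) r (by omega)] at h3
  have h4 : n - 1 + 1 = n := by omega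
  rw [h4] at h3
  rw [h2]
  omega


end Pool.Agent.H562C
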