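import Pool.Agent.H562C.Defs



open Finset

namespace Pool.Agent.H562C


/-- decomposition into simple fractions -/
lemma lagr_pf (s : Finset ℕ) (u a : ℕ → ℚ) (hu : ∀ i ∈ s, ∀ j ∈ s, i ≠ j → u i ≠ u j) :
    ∀ x : ℚ, (∀ i ∈ s, x ≠ u i) → ∏ j ∈ s, ((x - u j - a j) / (x - u j)) =
      1 - ∑ i ∈ s, (a i / (x - u i)) * ∏ j ∈ s.erase i, ((u i - u j - a j) / (u i - u j)) := by
  induction s using Finset.induction_on with
  | empty => intro x _; simp
  | insert v s hv ih =>
    intro x hx
    have hus : ∀ i ∈ s, ∀ j ∈ s, i ≠ j → u i ≠ u j := fun i hi j hj =>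
      hu i (mem_insert_of_mem hi) j (mem_insert_of_mem hj)
    have h1 := ih hus x (fun i hi => hx i (mem_insert_of_mem hi))
    have huv : ∀ i ∈ s, u v ≠ u i := fun i hi =>
      hu v (mem_insert_self _ _) i (mem_insert_of_mem hi) (fun h => hv (h ▸ hi))
    have h2 := ih hus (u v) huv
    have hxv : x ≠ u v := hx v (mem_insert_self _ _)
    have h3 : ∀ i ∈ s, ∏ j ∈ (insert v s).erase i, ((u i - u j - a j) / (u i - u j)) =
        ((u i - u v - a v) / (u i - u v)) * ∏ j ∈ s.erase i, ((u i - u j - a j) / (u i - u j)) := by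
      intro i hi
      have hvi : v ≠ i := fun h => hv (h ▸ hi)
      rw [erase_insert_of_ne hvi, prod_insert (fun h => hv (mem_of_mem_erase h))]
    rw [prod_insert hv, sum_insert hv, erase_insert hv, h1, h2]
    have h4 : ∑ i ∈ s, (a i / (x - u i)) *
        ∏ j ∈ (insert v s).erase i, ((u i - u j - a j) / (u i - u j)) =
        ∑ i ∈ s, (a i / (x - u i)) * (((u i - u v - a v) / (u i - u v)) *
          ∏ j ∈ s.erase i, ((u i - u j - a j) / (u i - u j))) :=
      sum_congr rfl fun i hi => by rw [h3 i hi]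
    rw [h4]
    have hxv' : x - u v ≠ 0 := sub_ne_zero.2 hxv
    have h5 : ∑ i ∈ s, (a i / (x - u i)) * (((u i - u v - a v) / (u i - u v)) *
          ∏ j ∈ s.erase i, ((u i - u j - a j) / (u i - u j))) =
        ((x - u v - a v) / (x - u v)) * ∑ i ∈ s, (a i / (x - u i)) *
          ∏ j ∈ s.erase i, ((u i - u j - a j) / (u i - u j)) +
        (a v / (x - u v)) * ∑ i ∈ s, (a i / (u v - u i)) *
          ∏ j ∈ s.erase i, ((u i - u j - a j) / (u i - u j)) := by
      rw [mul_sum, mul_sum, ← sum_add_distrib]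
      refine sum_congr rfl fun i hi => ?_
      generalize ∏ j ∈ s.erase i, ((u i - u j - a j) / (u i - u j)) = P
      have e1 : x - u i ≠ 0 := sub_ne_zero.2 (hx i (mem_insert_of_mem hi))
      have e2 : u v - u i ≠ 0 := sub_ne_zero.2 (huv i hi)
      have e3 : u i - u v ≠ 0 := sub_ne_zero.2 (huv i hi).symm
      field_simp
      ring
    rw [h5]
    have h6 : (x - u v - a v) / (x - u v) = 1 - a v / (x - u v) := by
      field_simp
    rw [h6]
    ring

theorem lagr (s : Finset ℕ) (u a : ℕ → ℚ) (hu : ∀ i ∈ s, ∀ j ∈ s, i ≠ j → u i ≠ u j) :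
    ∑ i ∈ s, a i * ∏ j ∈ s.erase i, ((u i - u j - a j) / (u i - u j)) = ∑ i ∈ s, a i := by
  induction s using Finset.induction_on with
  | empty => simp
  | insert v s hv ih =>
    have hus : ∀ i ∈ s, ∀ j ∈ s, i ≠ j → u i ≠ u j := fun i hi j hj =>
      hu i (mem_insert_of_mem hi) j (mem_insert_of_mem hj)
    have huv : ∀ i ∈ s, u v ≠ u i := fun i hi =>
      hu v (mem_insert_self _ _) i (mem_insert_of_mem hi) (fun h => hv (h ▸ hi))
    have h2 := lagr_pf s u a hus (u v) huv
    have h3 : ∀ i ∈ s, ∏ j ∈ (insert v s).erase i, ((u i - u j - a j) / (u i - u j)) =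
        ((u i - u v - a v) / (u i - u v)) * ∏ j ∈ s.erase i, ((u i - u j - a j) / (u i - u j)) := by
      intro i hi
      have hvi : v ≠ i := fun h => hv (h ▸ hi)
      rw [erase_insert_of_ne hvi, prod_insert (fun h => hv (mem_of_mem_erase h))]
    rw [sum_insert hv, sum_insert hv, erase_insert hv, h2, ← ih hus]
    have h4 : ∑ i ∈ s, a i *
        ∏ j ∈ (insert v s).erase i, ((u i - u j - a j) / (u i - u j)) =
        ∑ i ∈ s, a i * (∏ j ∈ s.erase i, ((u i - u j - a j) / (u i - u j))) +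
        a v * ∑ i ∈ s, (a i / (u v - u i)) *
          ∏ j ∈ s.erase i, ((u i - u j - a j) / (u i - u j)) := by
      rw [mul_sum, ← sum_add_distrib]
      refine sum_congr rfl fun i hi => ?_
      rw [h3 i hi]
      generalize ∏ j ∈ s.erase i, ((u i - u j - a j) / (u i - u j)) = P
      have e2 : u v - u i ≠ 0 := sub_ne_zero.2 (huv i hi)
      have e3 : u i - u v ≠ 0 := sub_ne_zero.2 (huv i hi).symm
      field_simp
      ring
    rw [h4]
    ring

end Pool.Agent.H562C
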