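import Mathlib

open Finset

namespace Pool.Agent.H562C

/-- strict partitions, as sequences of natural numbers -/
def st (μ : ℕ → ℕ) : Prop := ∀ i j, i < j → μ j = 0 ∨ μ j < μ i

def upv (i : ℕ) (μ : ℕ → ℕ) : ℕ → ℕ := Function.update μ i (μ i + 1)

def dnv (i : ℕ) (μ : ℕ → ℕ) : ℕ → ℕ := Function.update μ i (μ i - 1)

/-- weight of the box added in row `i` to a row of length `c` -/
def wv (i c : ℕ) : ℚ := if c = 0 then (i : ℚ) else 2 * i + c + 1

def vv (_i c : ℕ) : ℚ := if c = 0 then 1 else 2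

/-- factor of Schur's product formula -/
def cc (a b : ℕ) : ℚ := if b = 0 then 1 else ((a : ℚ) - b) / ((a : ℚ) + b)

/-- Schur's product formula for the number of shifted standard tableaux (`K` rows) -/
def FF (K : ℕ) (μ : ℕ → ℕ) : ℚ :=
  ((∑ i ∈ range K, μ i).factorial : ℚ) * (∏ i ∈ range K, (1 / ((μ i).factorial : ℚ))) *
    ∏ j ∈ range K, ∏ i ∈ range j, cc (μ i) (μ j)

open Classical in
noncomputable def Fh (K : ℕ) (μ : ℕ → ℕ) : ℚ := if st μ then FF K μ else 0

/-- extension by zero -/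
def ex {K : ℕ} (μ : Fin K → ℕ) : ℕ → ℕ := fun i => if h : i < K then μ ⟨i, h⟩ else 0

/-- content of a word -/
def Sw {N K : ℕ} (w : Fin N → Fin K) (j : ℕ) (i : Fin K) : ℕ :=
  (univ.filter (fun t : Fin N => (t : ℕ) < j ∧ w t = i)).card

open Classical in
/-- words all of whose prefixes have content in `V`, of total content `μ` -/
noncomputable def Wd {K : ℕ} (V : (Fin K → ℕ) → Prop) (N : ℕ) (μ : Fin K → ℕ) :
    Finset (Fin N → Fin K) :=
  univ.filter (fun w => (∀ j : ℕ, j ≤ N → V (Sw w j)) ∧ ∀ i : Fin K, Sw w N i = μ i)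

/-- strict partitions inside the trapezoid with `r` rows -/
def Jn (n r : ℕ) : Finset (Fin r → Fin (n + 1)) :=
  univ.filter (fun μ => (∀ i : Fin r, (μ i : ℕ) ≤ n - 2 * (i : ℕ)) ∧
    ∀ i j : Fin r, i < j → (μ j : ℕ) = 0 ∨ (μ j : ℕ) < (μ i : ℕ))

end Pool.Agent.H562C
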