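import Pool.Agent.H562C.Bp

open Finset

namespace Pool.Agent.H562C

theorem st_ex {K : ℕ} (μ : Fin K → ℕ) : st (ex μ) ↔ ∀ i j : Fin K, i < j → μ j = 0 ∨ μ j < μ i := by
  constructor
  · intro h i j hij
    have := h i.val j.val hij
    simpa [ex] using this
  · intro h i j hij
    unfold ex
    by_cases hj : j < K
    · have hi : i < K := by omega
      rw [dif_pos hj, dif_pos hi]
      exact h ⟨i, hi⟩ ⟨j, hj⟩ hij
    · rw [dif_neg hj]; exact Or.inl rfl

theorem ex_zero {K : ℕ} (μ : Fin K → ℕ) (i : ℕ) (hi : K ≤ i) : ex μ i = 0 := by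
  unfold ex; rw [dif_neg (by omega)]

theorem ex_val {K : ℕ} (μ : Fin K → ℕ) (i : Fin K) : ex μ i.val = μ i := by
  unfold ex; rw [dif_pos i.isLt]

theorem ex_dn {K : ℕ} (μ : Fin K → ℕ) (i : Fin K) :
    ex (Function.update μ i (μ i - 1)) = dnv i.val (ex μ) := by
  funext j
  unfold dnv
  by_cases hj : j < K
  · by_cases hij : j = i.val
    · subst hij
      rw [Function.update_self, ex_val, ex_val, Function.update_self]
    · rw [Function.update_of_ne hij]
      unfold ex
      rw [dif_pos hj, dif_pos hj, Function.update_of_ne]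
      intro h; apply hij; rw [← h]
  · have hij : j ≠ i.val := by have := i.isLt; omega
    rw [Function.update_of_ne hij, ex_zero _ _ (by omega), ex_zero _ _ (by omega)]

theorem sum_ex {K : ℕ} (μ : Fin K → ℕ) : ∑ i ∈ range K, ex μ i = ∑ i, μ i := by
  rw [← Fin.sum_univ_eq_sum_range]
  exact sum_congr rfl fun i _ => ex_val μ i

open Classical in
/-- generic word counting -/
theorem words {K : ℕ} (V : (Fin K → ℕ) → Prop) (b : Fin K → ℕ)
    (hV : ∀ μ, V μ ↔ (∀ i, μ i ≤ b i) ∧ st (ex μ)) (D : (Fin K → ℕ) → ℕ)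
    (hD : ∀ μ, V μ → D μ = ((range K).filter (fun i => 0 < ex μ i ∧ st (dnv i (ex μ)))).card)
    (N : ℕ) (μ : Fin K → ℕ) (hμ : V μ) (hN : ∑ i, μ i = N) :
    ((Wd V N μ).card : ℚ) = FF K (ex μ) ∧
    2 * ∑ w ∈ Wd V N μ, ∑ j ∈ range (N + 1), (D (Sw w j) : ℚ)
      = ∑ i ∈ range (K + 1), wv i (ex μ i) * Fh (K + 1) (upv i (ex μ)) ∧
    ((N : ℚ) + 1) * (Wd V N μ).card
      = ∑ i ∈ range (K + 1), vv i (ex μ i) * Fh (K + 1) (upv i (ex μ)) := by
  induction N generalizing μ with
  | zero =>
    have h0 : μ = 0 := by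
      funext i
      have := (sum_eq_zero_iff.1 hN) i (mem_univ i)
      simpa using this
    subst h0
    have hex : ex (0 : Fin K → ℕ) = 0 := by
      funext i; unfold ex; split <;> rfl
    have hS : ∀ w : Fin 0 → Fin K, ∀ j, Sw w j = 0 := by
      intro w j; funext i; simp [Sw]
    have hW : Wd V 0 (0 : Fin K → ℕ) = univ := by
      ext w
      simp only [Wd, mem_filter, mem_univ, true_and, iff_true]
      refine ⟨fun j _ => ?_, fun i => ?_⟩
      · rw [hS]; exact hμ
      · rw [hS]
    have hcard : (univ : Finset (Fin 0 → Fin K)).card = 1 := by simp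
    have hF : ∀ K', FF K' (0 : ℕ → ℕ) = 1 := by
      intro K'
      simp [FF, cc]
    have hD0 : (D 0 : ℚ) = 0 := by
      rw [hD 0 hμ, hex]; simp
    have hst0 : st (0 : ℕ → ℕ) := fun i j _ => Or.inl rfl
    have hA := id_w 0 (0 : ℕ → ℕ) hst0 (fun _ _ => rfl)
    have hup : ∀ i, st (upv i (0 : ℕ → ℕ)) ↔ i = 0 := by
      intro i
      constructor
      · intro h
        by_contra hne
        have := h 0 i (by omega)
        simp [upv, Function.update_of_ne (Ne.symm hne)] at this
      · rintro rfl i j hij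
        left
        simp [upv, Function.update_of_ne (show j ≠ 0 by omega)]
    have hFu : FF (K + 1) (upv 0 (0 : ℕ → ℕ)) = 1 := by
      have hs : ∑ i ∈ range (K + 1), upv 0 (0 : ℕ → ℕ) i = 1 := by
        rw [sum_range_succ']
        simp [upv, Function.update_of_ne]
      have hp : ∏ i ∈ range (K + 1), (1 / ((upv 0 (0 : ℕ → ℕ) i).factorial : ℚ)) = 1 := by
        refine prod_eq_one fun i _ => ?_
        by_cases hi : i = 0
        · subst hi; simp [upv]
        · simp [upv, Function.update_of_ne hi]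
      have hc : ∏ j ∈ range (K + 1), ∏ i ∈ range j, cc (upv 0 (0 : ℕ → ℕ) i) (upv 0 (0 : ℕ → ℕ) j) = 1 := by
        refine prod_eq_one fun j _ => prod_eq_one fun i hi => ?_
        have hj : j ≠ 0 := by have := mem_range.1 hi; omega
        simp [upv, Function.update_of_ne hj, cc]
      unfold FF
      rw [hs, hp, hc]; simp
    have hsumw : ∀ g : ℕ → ℕ → ℚ, ∑ i ∈ range (K + 1), g i ((0 : ℕ → ℕ) i) * Fh (K + 1) (upv i (0 : ℕ → ℕ)) = g 0 0 := by
      intro g
      rw [sum_eq_single 0]
      · rw [Fh, if_pos ((hup 0).2 rfl), hFu]; simp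
      · intro i _ hi
        rw [Fh, if_neg (fun h => hi ((hup i).1 h)), mul_zero]
      · intro h; exact absurd (mem_range.2 (by omega)) h
    rw [hex, hsumw, hsumw, hF, hW, hcard]
    refine ⟨by norm_num, ?_, ?_⟩
    · simp only [hS, hD0]
      simp [wv]
    · simp [vv]
  | succ N ih =>
    have hst : st (ex μ) := ((hV μ).1 hμ).2
    have h0 : ∀ i, K ≤ i → ex μ i = 0 := ex_zero μ
    have hpos : 0 < ∑ i ∈ range K, ex μ i := by rw [sum_ex, hN]; omega
    -- data for the smaller partitions
    have hdn : ∀ i : Fin K, 0 < μ i → (V (Function.update μ i (μ i - 1)) ↔ st (dnv i.val (ex μ))) := by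
      intro i hi
      rw [hV, ex_dn]
      constructor
      · intro h; exact h.2
      · intro h
        refine ⟨fun a => ?_, h⟩
        have := ((hV μ).1 hμ).1 a
        by_cases ha : a = i
        · subst ha; rw [Function.update_self]; omega
        · rw [Function.update_of_ne ha]; exact this
    have hsum : ∀ i : Fin K, 0 < μ i → ∑ a, Function.update μ i (μ i - 1) a = N := by
      intro i hi
      have h1 := sum_update_of_mem (mem_univ i) μ (μ i - 1)
      have h2 : ∑ a, μ a = μ i + ∑ a ∈ univ \ {i}, μ a := by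
        rw [← sum_update_of_mem (mem_univ i) μ (μ i), Function.update_eq_self]
      rw [h1]; omega
    have hcard : ((Wd V (N + 1) μ).card : ℚ) = FF K (ex μ) := by
      rw [Wd_card_succ V N μ hμ]
      push_cast
      rw [← FF_rec K (ex μ) hst h0 hpos, ← Fin.sum_univ_eq_sum_range (fun i => if 0 < ex μ i then Fh K (dnv i (ex μ)) else 0)]
      refine sum_congr rfl fun i _ => ?_
      rw [ex_val]
      by_cases hi : 0 < μ i
      · rw [if_pos hi, if_pos hi]
        by_cases hs : st (dnv i.val (ex μ))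
        · rw [(ih _ ((hdn i hi).2 hs) (hsum i hi)).1, Fh, if_pos hs, ex_dn]
        · rw [Fh, if_neg hs, Wd_empty V N _ (fun h => hs ((hdn i hi).1 h))]; simp
      · rw [if_neg hi, if_neg hi]
    have hFK : FF (K + 1) (ex μ) = FF K (ex μ) := FF_ext K _ (h0 K le_rfl)
    refine ⟨hcard, ?_, ?_⟩
    · rw [Wd_sum_succ V N μ hμ (fun ν => (D ν : ℚ)), Phi_rec K wv (ex μ) hst h0, id_w K (ex μ) hst h0, hcard, hD μ hμ,
        ← Fin.sum_univ_eq_sum_range (fun l => if 0 < ex μ l ∧ st (dnv l (ex μ)) then
            ∑ i ∈ range (K + 1), wv i (dnv l (ex μ) i) * Fh (K + 1) (upv i (dnv l (ex μ))) else 0), mul_add, mul_sum]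
      have : ∀ i : Fin K, 2 * (if 0 < μ i then
          ∑ w ∈ Wd V N (Function.update μ i (μ i - 1)), ∑ j ∈ range (N + 1), (D (Sw w j) : ℚ) else 0)
          = if 0 < ex μ i.val ∧ st (dnv i.val (ex μ)) then
            ∑ a ∈ range (K + 1), wv a (dnv i.val (ex μ) a) * Fh (K + 1) (upv a (dnv i.val (ex μ))) else 0 := by
        intro i
        rw [ex_val]
        by_cases hi : 0 < μ i
        · by_cases hs : st (dnv i.val (ex μ))
          · rw [if_pos hi, if_pos ⟨hi, hs⟩, (ih _ ((hdn i hi).2 hs) (hsum i hi)).2.1, ex_dn]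
          · rw [if_pos hi, if_neg (fun h => hs h.2), Wd_empty V N _ (fun h => hs ((hdn i hi).1 h))]; simp
        · rw [if_neg hi, if_neg (fun h => hi h.1)]; simp
      rw [sum_congr rfl fun i _ => this i]
      ring
    · rw [Phi_rec K vv (ex μ) hst h0, id_v K (ex μ) hst h0,
        ← Fin.sum_univ_eq_sum_range (fun l => if 0 < ex μ l ∧ st (dnv l (ex μ)) then
            ∑ i ∈ range (K + 1), vv i (dnv l (ex μ) i) * Fh (K + 1) (upv i (dnv l (ex μ))) else 0)]
      have : ∀ i : Fin K, (if 0 < ex μ i.val ∧ st (dnv i.val (ex μ)) then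
            ∑ a ∈ range (K + 1), vv a (dnv i.val (ex μ) a) * Fh (K + 1) (upv a (dnv i.val (ex μ))) else 0)
          = ((N : ℚ) + 1) * (if 0 < μ i then ((Wd V N (Function.update μ i (μ i - 1))).card : ℚ) else 0) := by
        intro i
        rw [ex_val]
        by_cases hi : 0 < μ i
        · by_cases hs : st (dnv i.val (ex μ))
          · rw [if_pos hi, if_pos ⟨hi, hs⟩, (ih _ ((hdn i hi).2 hs) (hsum i hi)).2.2, ex_dn]
          · rw [if_pos hi, if_neg (fun h => hs h.2), Wd_empty V N _ (fun h => hs ((hdn i hi).1 h))]; simp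
        · rw [if_neg hi, if_neg (fun h => hi h.1)]; simp
      rw [sum_congr rfl fun i _ => this i, ← mul_sum]
      have hc2 := Wd_card_succ V N μ hμ
      have hc3 : ((Wd V (N + 1) μ).card : ℚ) = ∑ i : Fin K, (if 0 < μ i then ((Wd V N (Function.update μ i (μ i - 1))).card : ℚ) else 0) := by
        rw [hc2]; push_cast; rfl
      rw [← hc3, ← hcard]
      push_cast
      ring

theorem FF_pos (K : ℕ) (μ : ℕ → ℕ) (h : st μ) : 0 < FF K μ := by
  unfold FF
  refine mul_pos (mul_pos ?_ ?_) ?_
  · exact_mod_cast Nat.factorial_pos _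
  · refine prod_pos fun i _ => ?_
    have : (0 : ℚ) < ((μ i).factorial : ℚ) := by exact_mod_cast Nat.factorial_pos _
    positivity
  · refine prod_pos fun j _ => prod_pos fun i hi => ?_
    unfold cc
    split
    · norm_num
    · rename_i hj
      rcases h i j (mem_range.1 hi) with h1 | h1
      · exact absurd h1 hj
      · have h2 : (μ j : ℚ) < μ i := by exact_mod_cast h1
        have h3 : (0 : ℚ) ≤ μ j := by positivity
        exact div_pos (by linarith) (by linarith)

theorem FF_up (K : ℕ) (μ : ℕ → ℕ) (h0 : μ K = 0) :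
    FF (K + 1) (upv K μ) = ((∑ i ∈ range K, μ i : ℕ) + 1 : ℚ) * FF K μ * ∏ i ∈ range K, cc (μ i) 1 := by
  have hne : ∀ i ∈ range K, upv K μ i = μ i := by
    intro i hi
    have := mem_range.1 hi
    exact Function.update_of_ne (by omega) _ _
  have hK : upv K μ K = 1 := by simp [upv, h0]
  have hs : ∑ i ∈ range (K + 1), upv K μ i = (∑ i ∈ range K, μ i) + 1 := by
    rw [sum_range_succ, hK, sum_congr rfl hne]
  have hp : ∏ i ∈ range (K + 1), (1 / ((upv K μ i).factorial : ℚ)) = ∏ i ∈ range K, (1 / ((μ i).factorial : ℚ)) := by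
    rw [prod_range_succ, hK, prod_congr rfl fun i hi => by rw [hne i hi]]
    simp
  have hc : ∏ j ∈ range (K + 1), ∏ i ∈ range j, cc (upv K μ i) (upv K μ j)
      = (∏ j ∈ range K, ∏ i ∈ range j, cc (μ i) (μ j)) * ∏ i ∈ range K, cc (μ i) 1 := by
    rw [prod_range_succ, hK]
    congr 1
    · refine prod_congr rfl fun j hj => prod_congr rfl fun i hi => ?_
      have h1 := mem_range.1 hj
      have h2 := mem_range.1 hi
      rw [hne j hj, hne i (mem_range.2 (by omega))]
    · refine prod_congr rfl fun i hi => ?_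
      rw [hne i hi]
  unfold FF
  rw [hs, hp, hc, Nat.factorial_succ]
  push_cast
  ring

theorem tele (n k : ℕ) (hk : 2 * k < n) (j : ℕ) (hj : j ≤ k + 1) :
    ∏ i ∈ range j, cc (n - 2 * i) 1 = ((n : ℚ) - 2 * j + 1) / (n + 1) := by
  induction j with
  | zero => simp; field_simp
  | succ j ih =>
    rw [prod_range_succ, ih (by omega)]
    have h1 : ((n - 2 * j : ℕ) : ℚ) = (n : ℚ) - 2 * j := by
      rw [Nat.cast_sub (by omega)]; push_cast; ring
    have h2 : (0 : ℚ) < (n : ℚ) - 2 * j := by
      rw [← h1]; exact_mod_cast (by omega : 0 < n - 2 * j)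
    unfold cc
    rw [if_neg one_ne_zero, h1]
    push_cast
    have h3 : (n : ℚ) - 2 * j + 1 ≠ 0 := by linarith
    have h4 : (n : ℚ) + 1 ≠ 0 := by positivity
    field_simp
    ring

theorem sumN (n k : ℕ) (hk : 2 * k < n) : ((∑ i : Fin (k + 1), (n - 2 * (i : ℕ)) : ℕ) : ℚ) = (k + 1) * ((n : ℚ) - k) := by
  have : ∀ j ≤ k + 1, ((∑ i ∈ range j, (n - 2 * i) : ℕ) : ℚ) = j * ((n : ℚ) - j + 1) := by
    intro j
    induction j with
    | zero => intro _; simp
    | succ j ih =>
      intro hj
      rw [sum_range_succ, Nat.cast_add, ih (by omega), Nat.cast_sub (by omega)]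
      push_cast; ring
  rw [Fin.sum_univ_eq_sum_range (fun i => n - 2 * i), this _ le_rfl]
  push_cast; ring

open Classical in
theorem main (n k : ℕ) (hn : 1 ≤ n) (hk : 2 * k < n) (V : (Fin (k + 1) → ℕ) → Prop)
    (hV0 : ∀ μ, V μ ↔ ((∀ i : Fin (k+1), μ i ≤ n - 2 * (i : ℕ)) ∧
        ∀ i j : Fin (k+1), i < j → μ j = 0 ∨ μ j < μ i))
    (D : (Fin (k + 1) → ℕ) → ℕ)
    (hD0 : ∀ μ, D μ = (Finset.univ.filter
        (fun i : Fin (k+1) => 0 < μ i ∧ V (Function.update μ i (μ i - 1)))).card)
    (N : ℕ) (hN : N = ∑ i : Fin (k+1), (n - 2 * (i : ℕ))) :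
    ((∑ μ ∈ Jn n (k + 1), (D (fun i => (μ i : ℕ)) : ℚ)) / ((Jn n (k + 1)).card : ℚ) = (N : ℚ) / ((n : ℚ) + 1)) ∧
    ((∑ w ∈ Wd V N (fun i => n - 2 * (i : ℕ)), ∑ j ∈ range (N + 1), (D (Sw w j) : ℚ)) /
      (((Wd V N (fun i => n - 2 * (i : ℕ))).card : ℚ) * ((N : ℚ) + 1)) = (N : ℚ) / ((n : ℚ) + 1)) := by
  have hV : ∀ μ, V μ ↔ (∀ i : Fin (k + 1), μ i ≤ n - 2 * (i : ℕ)) ∧ st (ex μ) := by
    intro μ; rw [hV0, st_ex]
  have hD : ∀ μ, V μ → D μ = ((range (k + 1)).filter (fun i => 0 < ex μ i ∧ st (dnv i (ex μ)))).card := by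
    intro μ hμ
    rw [hD0, card_filter, card_filter, ← Fin.sum_univ_eq_sum_range (fun i => if 0 < ex μ i ∧ st (dnv i (ex μ)) then 1 else 0)]
    refine sum_congr rfl fun i _ => ?_
    refine if_congr ?_ rfl rfl
    rw [ex_val, hV, ex_dn]
    constructor
    · rintro ⟨h1, -, h2⟩; exact ⟨h1, h2⟩
    · rintro ⟨h1, h2⟩
      refine ⟨h1, fun a => ?_, h2⟩
      have := ((hV μ).1 hμ).1 a
      by_cases ha : a = i
      · subst ha; rw [Function.update_self]; omega
      · rw [Function.update_of_ne ha]; exact this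
  have hNq : (N : ℚ) = (k + 1) * ((n : ℚ) - k) := by rw [hN]; exact sumN n k hk
  have hn1 : (n : ℚ) + 1 ≠ 0 := by positivity
  constructor
  · -- uniform part
    have hJ : ∀ μ ∈ Jn n (k + 1), V (fun a => (μ a : ℕ)) := by
      intro μ hμ
      rw [hV0]
      exact (mem_filter.1 hμ).2
    have hA := J_sum n k hk wv
    have hB := J_sum n k hk vv
    have hwv : ∀ i ∈ range (k + 1), wv i (n - 2 * i) = n + 1 := by
      intro i hi
      have := mem_range.1 hi
      unfold wv
      rw [if_neg (by omega), Nat.cast_sub (by omega)]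
      push_cast; ring
    have hvv : ∀ i ∈ range (k + 1), vv i (n - 2 * i) = 2 := by
      intro i hi
      have := mem_range.1 hi
      unfold vv
      rw [if_neg (by omega)]
    set Y : ℚ := ∑ μ ∈ Jn n (k + 1), ∑ i ∈ range (k + 1),
      (if st (upv i (ex (fun a => (μ a : ℕ)))) ∧ ex (fun a => (μ a : ℕ)) i = n - 2 * i then 1 else 0) with hY
    set B : ℚ := ∑ μ ∈ Jn n (k + 1), (if st (upv (k + 1) (ex (fun a => (μ a : ℕ)))) then 1 else 0) with hBd
    have hA2 : 2 * ∑ μ ∈ Jn n (k + 1), (D (fun i => (μ i : ℕ)) : ℚ) = (n + 1) * Y + (k + 1) * B := by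
      have e1 : ∑ μ ∈ Jn n (k + 1),
          (∑ i ∈ range (k + 2), (if st (upv i (ex (fun a => (μ a : ℕ)))) then wv i (ex (fun a => (μ a : ℕ)) i) else 0)
            - ∑ i ∈ range (k + 1), (if 0 < ex (fun a => (μ a : ℕ)) i ∧ st (dnv i (ex (fun a => (μ a : ℕ))))
                then wv i (ex (fun a => (μ a : ℕ)) i - 1) else 0))
          = 2 * ∑ μ ∈ Jn n (k + 1), (D (fun i => (μ i : ℕ)) : ℚ) := by
        rw [mul_sum]
        refine sum_congr rfl fun μ hμ => ?_
        rw [id_w (k + 1) _ ((hV _).1 (hJ μ hμ)).2 (ex_zero _), hD _ (hJ μ hμ)]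
      rw [← e1, hA, hY, hBd, mul_sum, mul_sum, ← sum_add_distrib]
      refine sum_congr rfl fun μ _ => ?_
      rw [mul_sum]
      refine congrArg₂ _ (sum_congr rfl fun i hi => ?_) ?_
      · rw [hwv i hi]; split <;> simp
      · split
        · simp [wv]
        · simp
    have hB2 : ((Jn n (k + 1)).card : ℚ) = 2 * Y + B := by
      have e1 : ∑ μ ∈ Jn n (k + 1),
          (∑ i ∈ range (k + 2), (if st (upv i (ex (fun a => (μ a : ℕ)))) then vv i (ex (fun a => (μ a : ℕ)) i) else 0)
            - ∑ i ∈ range (k + 1), (if 0 < ex (fun a => (μ a : ℕ)) i ∧ st (dnv i (ex (fun a => (μ a : ℕ))))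
                then vv i (ex (fun a => (μ a : ℕ)) i - 1) else 0))
          = ((Jn n (k + 1)).card : ℚ) := by
        rw [card_eq_sum_ones]
        push_cast
        refine sum_congr rfl fun μ hμ => ?_
        rw [id_v (k + 1) _ ((hV _).1 (hJ μ hμ)).2 (ex_zero _)]
      rw [← e1, hB, hY, hBd, mul_sum, ← sum_add_distrib]
      refine sum_congr rfl fun μ _ => ?_
      rw [mul_sum]
      refine congrArg₂ _ (sum_congr rfl fun i hi => ?_) ?_
      · rw [hvv i hi]; split <;> simp
      · split
        · simp [vv]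
        · simp
    have hB3 : B = (n.choose (k + 1) : ℚ) - n.choose k := by
      have e1 := card_Jn_two n k (by omega)
      have e2 : B = (((Jn n (k + 1)).filter (fun μ => 2 ≤ (μ (Fin.last k) : ℕ))).card : ℚ) := by
        rw [hBd, card_filter]
        push_cast
        refine sum_congr rfl fun μ hμ => if_congr ?_ rfl rfl
        have hs := ((hV _).1 (hJ μ hμ)).2
        have hk1 : ex (fun a => (μ a : ℕ)) k = (μ (Fin.last k) : ℕ) := ex_val (fun a => (μ a : ℕ)) (Fin.last k)
        have hk2 : ex (fun a => (μ a : ℕ)) (k + 1) = 0 := ex_zero _ _ le_rfl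
        constructor
        · intro h
          have := h k (k + 1) (by omega)
          rw [upv, Function.update_self, Function.update_of_ne (by omega), hk1, hk2] at this
          omega
        · intro h i j hij
          unfold upv
          by_cases hj : j = k + 1
          · subst hj
            rw [Function.update_self, Function.update_of_ne (by omega), hk2]
            right
            rcases Nat.lt_or_ge i k with hik | hik
            · rcases hs i k hik with h1 | h1
              · rw [hk1] at h1; omega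
              · rw [hk1] at h1; omega
            · have : i = k := by omega
              subst this; rw [hk1]; omega
          · rw [Function.update_of_ne hj]
            by_cases hi : i = k + 1
            · left; exact ex_zero _ _ (by omega)
            · rw [Function.update_of_ne hi]; exact hs i j hij
      rw [e2]
      exact_mod_cast e1
    have hJc : ((Jn n (k + 1)).card : ℚ) = ((n + 1).choose (k + 1) : ℚ) := by
      rw [card_Jn n (k + 1) (by omega)]
    have hB4 : B * (n + 1) = ((n : ℚ) - 2 * k - 1) * ((n + 1).choose (k + 1) : ℚ) := by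
      have h1 := Nat.add_one_mul_choose_eq n k
      have h2 := Nat.choose_mul_succ_eq n (k + 1)
      have h1' : ((n : ℚ) + 1) * (n.choose k : ℚ) = ((n + 1).choose (k + 1) : ℚ) * (k + 1) := by exact_mod_cast h1
      have h2' : (n.choose (k + 1) : ℚ) * ((n : ℚ) + 1) = ((n + 1).choose (k + 1) : ℚ) * ((n : ℚ) - k) := by
        have h3 : ((n + 1 - (k + 1) : ℕ) : ℚ) = (n : ℚ) - k := by
          rw [Nat.cast_sub (by omega)]; push_cast; ring
        rw [← h3]; exact_mod_cast h2
      rw [hB3]
      linear_combination h2' - h1'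
    have hJpos : (0 : ℚ) < ((n + 1).choose (k + 1) : ℚ) := by
      exact_mod_cast Nat.choose_pos (by omega)
    rw [hJc] at hB2 ⊢
    rw [div_eq_div_iff hJpos.ne' hn1, hNq]
    set C : ℚ := ((n + 1).choose (k + 1) : ℚ)
    linear_combination ((n : ℚ) + 1) / 2 * hA2 - ((n : ℚ) + 1) ^ 2 / 4 * hB2 + ((2 * (k : ℚ) + 1 - n) / 4) * hB4
  · -- chain part
    set lam : Fin (k + 1) → ℕ := fun i => n - 2 * (i : ℕ) with hlam
    have hVl : V lam := by
      rw [hV0]
      refine ⟨fun i => le_rfl, fun i j hij => ?_⟩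
      right
      have h1 : (i : ℕ) < j := hij
      have h2 := j.isLt
      simp only [hlam]
      omega
    obtain ⟨w1, w2, w3⟩ := words V (fun i => n - 2 * (i : ℕ)) hV D hD N lam hVl hN.symm
    have hst : st (ex lam) := ((hV _).1 hVl).2
    have hexl : ∀ i ∈ range (k + 1), ex lam i = n - 2 * i := by
      intro i hi
      have := mem_range.1 hi
      unfold ex; rw [dif_pos this]
    have hexK : ex lam (k + 1) = 0 := ex_zero _ _ le_rfl
    set G := FF (k + 1) (ex lam) with hG
    have hGpos : 0 < G := FF_pos _ _ hst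
    set Y : ℚ := ∑ i ∈ range (k + 1), Fh (k + 1 + 1) (upv i (ex lam)) with hY
    set B : ℚ := Fh (k + 1 + 1) (upv (k + 1) (ex lam)) with hB
    have e2 : 2 * ∑ w ∈ Wd V N lam, ∑ j ∈ range (N + 1), (D (Sw w j) : ℚ) = (n + 1) * Y + (k + 1) * B := by
      rw [w2, sum_range_succ, hexK, hY, mul_sum]
      congr 1
      · refine sum_congr rfl fun i hi => ?_
        have := mem_range.1 hi
        rw [hexl i hi]
        unfold wv
        rw [if_neg (by omega), Nat.cast_sub (by omega)]
        push_cast; ring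
      · simp [wv, hB]
    have e3 : ((N : ℚ) + 1) * G = 2 * Y + B := by
      rw [← w1, w3, sum_range_succ, hexK, hY, mul_sum]
      congr 1
      · refine sum_congr rfl fun i hi => ?_
        have := mem_range.1 hi
        rw [hexl i hi]
        unfold vv
        rw [if_neg (by omega)]
      · simp [vv, hB]
    have e4 : B * (n + 1) = ((n : ℚ) - 2 * k - 1) * ((N : ℚ) + 1) * G := by
      have h1 := FF_up (k + 1) (ex lam) hexK
      rw [prod_congr rfl fun i hi => by rw [hexl i hi], tele n k hk (k + 1) le_rfl, sum_ex, ← hN, ← hG] at h1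
      by_cases hs : st (upv (k + 1) (ex lam))
      · rw [hB, Fh, if_pos hs, h1]
        push_cast
        field_simp
        ring
      · have hn2 : n = 2 * k + 1 := by
          by_contra hne
          apply hs
          intro i j hij
          unfold upv
          by_cases hj : j = k + 1
          · subst hj
            rw [Function.update_self, Function.update_of_ne (by omega), hexK, hexl i (mem_range.2 (by omega))]
            right; omega
          · rw [Function.update_of_ne hj]
            by_cases hi : i = k + 1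
            · left; exact ex_zero _ _ (by omega)
            · rw [Function.update_of_ne hi]; exact hst i j hij
        rw [hB, Fh, if_neg hs, hn2]
        push_cast; ring
    have hN1 : (N : ℚ) + 1 ≠ 0 := by positivity
    rw [w1, div_eq_div_iff (mul_ne_zero hGpos.ne' hN1) hn1]
    have hk2 : (N : ℚ) = (k + 1) * ((n : ℚ) - k) := hNq
    have key : 4 * ((n : ℚ) + 1) * ∑ w ∈ Wd V N lam, ∑ j ∈ range (N + 1), (D (Sw w j) : ℚ)
        = ((N : ℚ) + 1) * G * (((n : ℚ) + 1) ^ 2 - ((n : ℚ) - 2 * k - 1) ^ 2) := by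
      linear_combination 2 * ((n : ℚ) + 1) * e2 - ((n : ℚ) + 1) ^ 2 * e3 + (2 * (k : ℚ) + 1 - n) * e4
    have key2 : ((n : ℚ) + 1) ^ 2 - ((n : ℚ) - 2 * k - 1) ^ 2 = 4 * N := by rw [hk2]; ring
    rw [key2] at key
    linear_combination key / 4

end Pool.Agent.H562C
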